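import Pool.Agent.Q42.CU.Red
import Pool.Agent.Q223.TW.MotW

/-!
# Motivic zeta functions and triple systems
-/

set_option autoImplicit false
set_option linter.unusedSectionVars false

namespace Pool.Agent.Q42.CU

open MvPolynomial Pool.Agent.Q223.MM Pool.Agent.Q223.TW Pool.Agent.H628R4.TP Pool.Agent.Y229.MS
open Pool.Agent.W428.MOT (Pt Constr)
open Pool.Agent.Y229.PG (becomes_global)
open Pool.Agent.Y229.RE (stab)

/-- the transfer for the poles of the motivic zeta function -/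
theorem StEq.four {n κ : ℕ} {f : MvPolynomial (Fin n) ℂ} (hf : f.totalDegree ≠ 0) {m : ℕ → ℕ}
    {G : ∀ j : ℕ, MvPolynomial (Fin (m j)) ℂ} (h : ∀ j, StEq f (κ + j) (G j))
    (hG : ∀ j < 4, StrongOn (G j) Set.univ) : StrongOn f Set.univ := by
  choose e ψ hψ using fun j => (h j).alg
  have hu : Constr (Set.univ : Set (Pt ℂ (Fin n))) := by
    have := Constr.zero (K := ℂ) (ι := Fin n) 0
    simpa using this
  obtain ⟨W', -, h3, h4⟩ := transfer_four hf (fun j => rename (Fin.cast (e j)) (G j))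
    (fun j => ⟨ψ j, hψ j⟩) hu
  refine h4 fun j hj => ?_
  rw [h3 rfl j]
  exact (cast_prop (P := fun m (G : MvPolynomial (Fin m) ℂ) => StrongOn G Set.univ) (e j) _).2
    (hG j hj)

section field

variable {k : Type} [Field k] [Algebra k ℂ]

theorem inv24k : (24⁻¹ : k) * 24 = 1 := by
  have hk0 : CharZero k := RingHom.charZero (algebraMap k ℂ)
  norm_num

theorem minExp_phiK {n : ℕ} {f : MvPolynomial (Fin n) k} (hf : f.totalDegree ≠ 0) (N : ℕ)
    {c : Polynomial ℂ} (hc0 : c ≠ 0)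
    (hb : IsBFunction (map (algebraMap k ℂ) f) ((Polynomial.X + 1) * c)) :
    ∃ κ₁, ∀ κ, κ₁ ≤ κ → ∀ (m : ℕ) (G : MvPolynomial (Fin m) k), StEq f κ G →
      MinExp N (map (algebraMap k ℂ) G) := by
  obtain ⟨M, hM⟩ := re_bound c
  refine ⟨M + N, fun κ hκ m G hG => ?_⟩
  obtain ⟨e, ψ, hψ⟩ := hG.alg
  refine (cast_prop (P := fun m G => MinExp N (map (algebraMap k ℂ) G)) e G).1
    (minExp_FK hf N hc0 hb (fun r hr => ?_) ψ hψ)
  have h1 : ((M + N : ℕ) : ℝ) ≤ (κ : ℝ) := by exact_mod_cast hκ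
  push_cast at h1
  have h2 := hM r hr
  linarith

/-- **Normal forms with large minimal exponent over `k`.** -/
theorem exists_phisK (S : Set k) (hS : (1 : k) ∈ S) (N n : ℕ)
    (f : MvPolynomial (Fin n) k) (hf : f.totalDegree ≠ 0) [CharZero k]
    (hfS : ∀ d, coeff d f ∈ Submodule.span ℚ S) :
    ∃ κ₁ : ℕ, ∀ κ, κ₁ ≤ κ → ∃ (m r : ℕ) (E : Fin r → Finset (Fin m)) (c : Fin r → k), 0 < m ∧
      IsTriple S E c ∧ StEq f κ (Phi 24⁻¹ E c) ∧
      ((∃ b : Polynomial ℂ, b ≠ 0 ∧ IsBFunction (map (algebraMap k ℂ) f) b) →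
        MinExp N (map (algebraMap k ℂ) (Phi 24⁻¹ E c))) := by
  obtain ⟨κ₀, h0⟩ := normal_span inv24k hS f hfS
  rcases bfun_cases (map_deg hf) with ⟨p, hp0, hp⟩ | hall
  · obtain ⟨κ₁, h1⟩ := minExp_phiK hf N hp0 hp
    refine ⟨max κ₀ κ₁, fun κ hκ => ?_⟩
    obtain ⟨m, r, E, c, h2, h3, h4⟩ := h0 κ ((le_max_left _ _).trans hκ)
    exact ⟨m, r, E, c, h2, h3, h4, fun _ => h1 κ ((le_max_right _ _).trans hκ) _ _ h4⟩
  · refine ⟨κ₀, fun κ hκ => ?_⟩
    obtain ⟨m, r, E, c, h2, h3, h4⟩ := h0 κ hκ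
    exact ⟨m, r, E, c, h2, h3, h4, fun ⟨b, hb, hb'⟩ => absurd (hall b hb') hb⟩

/-- the transfer -/
theorem StEq.two {n κ m m' : ℕ} {f : MvPolynomial (Fin n) k} (hf : f.totalDegree ≠ 0)
    {G : MvPolynomial (Fin m) k} {G' : MvPolynomial (Fin m') k} (h : StEq f κ G)
    (h' : StEq f (κ + 1) G') (h1 : WeakM G) (h2 : WeakM G') : WeakM f := by
  obtain ⟨e, ψ, hψ⟩ := h.alg
  obtain ⟨e', ψ', hψ'⟩ := h'.alg
  exact transferM hf ψ hψ ψ' hψ'
    ((cast_prop (P := fun m (G : MvPolynomial (Fin m) k) => WeakM G) e _).2 h1)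
    ((cast_prop (P := fun m (G : MvPolynomial (Fin m) k) => WeakM G) e' _).2 h2)

end field

end Pool.Agent.Q42.CU
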