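import Pool.Agent.Q42.CU.Red
import Pool.Agent.Q223.TW.Glob

/-!
# Global topological zeta functions and triple systems
-/

set_option autoImplicit false
set_option linter.unusedSectionVars false

namespace Pool.Agent.Q42.CU

open MvPolynomial Pool.Agent.Q223.MM Pool.Agent.Q223.TW
open Pool.Agent.W428.MOT Pool.Agent.TH192.MU

theorem StEq.tw {n m κ : ℕ} {f : MvPolynomial (Fin n) ℂ} {G : MvPolynomial (Fin m) ℂ}
    (h : StEq f κ G) (hf : f.totalDegree ≠ 0) (R : Type) [CommRing R] [IsDomain R]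
    (E' : MK ℂ →+* R) (ε : R →+* ℂ) (h1 : ε (E' ((Lu ℂ : (MK ℂ)ˣ) : MK ℂ)) = 1)
    (h2 : E' ((Lu ℂ : (MK ℂ)ˣ) : MK ℂ) ≠ 1) (e : ℕ) (he : 0 < e) :
    (WeakTw E' ε e G → WeakTw E' ε e f) ∧ (StrongTw E' ε e G → StrongTw E' ε e f) :=
  ⟨h.inherit (fun m G => WeakTw E' ε e G) fun _ ψ hψ hF =>
      (transfer E' ε h1 h2 hf ψ hψ he).1 hF,
    h.inherit (fun m G => StrongTw E' ε e G) fun _ ψ hψ hF =>
      (transfer E' ε h1 h2 hf ψ hψ he).2 hF⟩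

theorem StEq.glob {n m κ : ℕ} {f : MvPolynomial (Fin n) ℂ} {G : MvPolynomial (Fin m) ℂ}
    (h : StEq f κ G) (hf : f.totalDegree ≠ 0) (R : Type) [CommRing R] [IsDomain R]
    (E' : MK ℂ →+* R) (ε : R →+* ℂ) (h1 : ε (E' ((Lu ℂ : (MK ℂ)ˣ) : MK ℂ)) = 1)
    (h2 : E' ((Lu ℂ : (MK ℂ)ˣ) : MK ℂ) ≠ 1) :
    (WeakG E' ε G → WeakG E' ε f) ∧ (StrongG E' ε G → StrongG E' ε f) := by
  rw [weakG_iff, weakG_iff, strongG_iff, strongG_iff]
  exact h.tw hf R E' ε h1 h2 1 one_pos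

end Pool.Agent.Q42.CU
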