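import Pool.Agent.Q42.CU.Tri

/-!
# Cubic polynomials as sums of cubes over a triple system
-/

set_option autoImplicit false

namespace Pool.Agent.Q42.CU

open MvPolynomial Pool.Agent.Q223.MM

section cubic

variable (N : ℕ) (Q T : Type) (d : ℕ)

/-- the unknowns: constants, zero, negatives, the three unknowns of a term and a pair of signs,
dummies -/
abbrev KK : Type := (Q ⊕ Unit) ⊕ ((Fin N ⊕ Q) ⊕ ((T × (Bool × Bool) × Fin 3) ⊕ Fin d))

variable {N Q T d}

/-- the unknown of an atom -/
def base : (Fin N ⊕ Q) → (Fin N ⊕ KK N Q T d)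
  | Sum.inl i => Sum.inl i
  | Sum.inr c => Sum.inr (Sum.inl (Sum.inl c))

/-- the unknown `0` -/
def ko : KK N Q T d := Sum.inl (Sum.inr ())

/-- the unknown of an atom with sign -/
def lit : Bool → (Fin N ⊕ Q) → (Fin N ⊕ KK N Q T d)
  | false, a => base a
  | true, a => Sum.inr (Sum.inr (Sum.inl a))

theorem lit_ne {s s' : Bool} {a b : Fin N ⊕ Q} (h : a ≠ b) :
    (lit s a : Fin N ⊕ KK N Q T d) ≠ lit s' b := by
  cases s <;> cases s' <;> rcases a with i | i <;> rcases b with j | j <;>
    simp [lit, base] at h ⊢ <;> exact h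

/-- the third sign -/
def third (s : Bool) (q : Bool × Bool) : Bool := xor s (xor q.1 q.2)

variable (α β δ : T → Fin N ⊕ Q) (s : T → Bool)

/-- the three edges of a term and a pair of signs -/
def edt (t : T) (q : Bool × Bool) : Fin 3 → ((Fin N ⊕ KK N Q T d) × (Fin N ⊕ KK N Q T d))
  | 0 => (lit (!q.1) (α t), lit (!q.2) (β t))
  | 1 => (Sum.inr (Sum.inr (Sum.inr (Sum.inl (t, q, 0)))), Sum.inr ko)
  | 2 => (Sum.inr (Sum.inr (Sum.inr (Sum.inl (t, q, 1)))), lit (!(third (s t) q)) (δ t))

/-- the edges -/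
def edk : KK N Q T d → Option ((Fin N ⊕ KK N Q T d) × (Fin N ⊕ KK N Q T d))
  | Sum.inl _ => none
  | Sum.inr (Sum.inl a) => some (base a, Sum.inr ko)
  | Sum.inr (Sum.inr (Sum.inl t)) => some (edt α β δ s t.1 t.2.1 t.2.2)
  | Sum.inr (Sum.inr (Sum.inr _)) => none

/-- the rank -/
def rkk : KK N Q T d → ℕ
  | Sum.inl _ => 0
  | Sum.inr (Sum.inl _) => 1
  | Sum.inr (Sum.inr (Sum.inl t)) => t.2.2.1 + 2
  | Sum.inr (Sum.inr (Sum.inr _)) => 0

theorem lit_rk {b : Bool} {a : Fin N ⊕ Q} {w : KK N Q T d} (h : lit b a = Sum.inr w) :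
    rkk w < 2 := by
  cases b <;> rcases a with i | i <;> simp [lit, base] at h <;> subst h <;> simp [rkk]

theorem rk_edk (v : KK N Q T d) (p : (Fin N ⊕ KK N Q T d) × (Fin N ⊕ KK N Q T d))
    (h : edk α β δ s v = some p) :
    (∀ w, p.1 = Sum.inr w → rkk w < rkk v) ∧ ∀ w, p.2 = Sum.inr w → rkk w < rkk v := by
  rcases v with c | a | ⟨t, q, i⟩ | i
  · exact absurd h (by simp [edk])
  · simp only [edk, Option.some.injEq] at h
    subst h
    refine ⟨fun w hw => ?_, fun w hw => ?_⟩
    · rcases a with i | c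
      · exact absurd hw (by simp [base])
      · simp only [base, Sum.inr.injEq] at hw
        subst hw
        simp [rkk]
    · simp only [Sum.inr.injEq] at hw
      subst hw
      simp [rkk, ko]
  · simp only [edk, Option.some.injEq] at h
    subst h
    fin_cases i
    · refine ⟨fun w hw => ?_, fun w hw => ?_⟩
      · exact (lit_rk hw).trans_le (by simp [rkk])
      · exact (lit_rk hw).trans_le (by simp [rkk])
    · refine ⟨fun w hw => ?_, fun w hw => ?_⟩
      · simp only [edt, Sum.inr.injEq] at hw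
        subst hw
        simp [rkk]
      · simp only [edt, Sum.inr.injEq] at hw
        subst hw
        simp [rkk, ko]
    · refine ⟨fun w hw => ?_, fun w hw => ?_⟩
      · simp only [edt, Sum.inr.injEq] at hw
        subst hw
        simp [rkk]
      · exact (lit_rk hw).trans_le (by simp [rkk])
  · exact absurd h (by simp [edk])

theorem ne_edk (hne : ∀ t, α t ≠ β t) (v : KK N Q T d)
    (p : (Fin N ⊕ KK N Q T d) × (Fin N ⊕ KK N Q T d)) (h : edk α β δ s v = some p) :
    p.1 ≠ p.2 := by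
  rcases v with c | a | ⟨t, q, i⟩ | i
  · exact absurd h (by simp [edk])
  · simp only [edk, Option.some.injEq] at h
    subst h
    rcases a with i | c <;> simp [base, ko]
  · simp only [edk, Option.some.injEq] at h
    subst h
    fin_cases i
    · exact lit_ne (hne t)
    · simp [edt, ko]
    · simp only [edt]
      intro h
      have h1 := lit_rk h.symm
      simp [rkk] at h1
  · exact absurd h (by simp [edk])

variable {R : Type} [CommRing R] (cv : Q → R)

/-- the value of an atom -/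
noncomputable def atom : (Fin N ⊕ Q) → MvPolynomial (Fin N) R :=
  Sum.elim X fun c => C (cv c)

/-- signs -/
noncomputable def sgn (R : Type) [CommRing R] (N : ℕ) : Bool → MvPolynomial (Fin N) R
  | false => 1
  | true => -1

/-- the values of the three unknowns of a term and a pair of signs -/
noncomputable def valt (t : T) (q : Bool × Bool) : Fin 3 → MvPolynomial (Fin N) R
  | 0 => sgn R N q.1 * atom cv (α t) + sgn R N q.2 * atom cv (β t)
  | 1 => -(sgn R N q.1 * atom cv (α t) + sgn R N q.2 * atom cv (β t))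
  | 2 => sgn R N q.1 * atom cv (α t) + sgn R N q.2 * atom cv (β t) +
      sgn R N (third (s t) q) * atom cv (δ t)

/-- the values -/
noncomputable def valk : KK N Q T d → MvPolynomial (Fin N) R
  | Sum.inl (Sum.inl c) => C (cv c)
  | Sum.inl (Sum.inr _) => 0
  | Sum.inr (Sum.inl a) => -atom cv a
  | Sum.inr (Sum.inr (Sum.inl t)) => valt α β δ s cv t.1 t.2.1 t.2.2
  | Sum.inr (Sum.inr (Sum.inr _)) => 0

/-- the constants -/
noncomputable def cstk : KK N Q T d → R
  | Sum.inl (Sum.inl c) => cv c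
  | _ => 0

theorem val_lit (b : Bool) (a : Fin N ⊕ Q) :
    Sum.elim X (valk α β δ s cv) (lit b a : Fin N ⊕ KK N Q T d) = sgn R N b * atom cv a := by
  cases b <;> rcases a with i | i <;> simp [lit, base, atom, valk, sgn]

theorem sgn_not (b : Bool) : sgn R N (!b) = -sgn R N b := by
  cases b <;> simp [sgn]

theorem hval_k (v : KK N Q T d) :
    valk α β δ s cv v + ((edk α β δ s v).elim 0 fun p =>
      Sum.elim X (valk α β δ s cv) p.1 + Sum.elim X (valk α β δ s cv) p.2) -
      C (cstk cv v) = 0 := by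
  rcases v with (c | u) | a | ⟨t, q, i⟩ | i
  · simp [edk, valk, cstk]
  · simp [edk, valk, cstk]
  · have h1 := val_lit (d := d) α β δ s cv false a
    simp only [lit, sgn, one_mul] at h1
    simp only [edk, Option.elim_some]
    rw [h1]
    simp [valk, cstk, ko]
  · simp only [edk, Option.elim_some]
    fin_cases i
    · simp only [edt, valk, valt, cstk]
      rw [val_lit, val_lit, sgn_not, sgn_not, C_0]
      ring
    · simp [edt, valk, valt, cstk, ko]
    · simp only [edt, valk, valt, cstk]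
      rw [val_lit, sgn_not, C_0]
      simp only [Sum.elim_inr, valk, valt]
      ring
  · simp [edk, valk, cstk]

theorem sgn_third (b : Bool) (q : Bool × Bool) :
    sgn R N (third b q) = sgn R N b * (sgn R N q.1 * sgn R N q.2) := by
  obtain ⟨q1, q2⟩ := q
  cases b <;> cases q1 <;> cases q2 <;> simp [sgn, third]

variable [Fintype Q] [Fintype T]

theorem sum_val {a : R} (ha : a * 24 = 1) :
    C a * (∑ i, X i ^ 3 + ∑ v : KK N Q T d, valk α β δ s cv v ^ 3) =
      ∑ t, sgn R N (s t) * (atom cv (α t) * atom cv (β t) * atom cv (δ t)) := by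
  have hC : (C a : MvPolynomial (Fin N) R) * 24 = 1 := by
    have h1 := congrArg (C : R →+* MvPolynomial (Fin N) R) ha
    rwa [map_mul, map_ofNat, map_one] at h1
  simp only [Fintype.sum_sum_type, Fintype.sum_prod_type, Fintype.sum_bool, Fin.sum_univ_three,
    valk, valt, sgn_third, atom, Sum.elim_inl, Sum.elim_inr]
  have h1 : ∀ b : Bool, sgn R N b ^ 2 = 1 := by
    intro b
    cases b <;> simp [sgn]
  have h2 : ∑ x : Fin N, (-X x : MvPolynomial (Fin N) R) ^ 3 = - ∑ x : Fin N, X x ^ 3 := by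
    rw [← Finset.sum_neg_distrib]
    refine Finset.sum_congr rfl fun x _ => ?_
    ring
  have h3 : ∑ x : Q, (-C (cv x) : MvPolynomial (Fin N) R) ^ 3 = - ∑ x : Q, C (cv x) ^ 3 := by
    rw [← Finset.sum_neg_distrib]
    refine Finset.sum_congr rfl fun x _ => ?_
    ring
  rw [h2, h3]
  have h4 : ∀ Z : MvPolynomial (Fin N) R,
      C a * (∑ x : Fin N, X x ^ 3 + (∑ x : Q, C (cv x) ^ 3 + ∑ x : Unit, (0 : MvPolynomial (Fin N) R) ^ 3 +
        (-∑ x : Fin N, X x ^ 3 + -∑ x : Q, C (cv x) ^ 3 + (Z + ∑ x : Fin d, (0 : MvPolynomial (Fin N) R) ^ 3)))) =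
        C a * Z := by
    intro Z
    rw [Finset.sum_eq_zero (s := (Finset.univ : Finset Unit)) fun _ _ => zero_pow three_ne_zero,
      Finset.sum_eq_zero (s := (Finset.univ : Finset (Fin d))) fun _ _ => zero_pow three_ne_zero]
    ring
  rw [h4, Finset.mul_sum]
  refine Finset.sum_congr rfl fun t _ => ?_
  generalize (Sum.elim X (fun c => C (cv c)) (α t) : MvPolynomial (Fin N) R) = A
  generalize (Sum.elim X (fun c => C (cv c)) (β t) : MvPolynomial (Fin N) R) = B
  generalize (Sum.elim X (fun c => C (cv c)) (δ t) : MvPolynomial (Fin N) R) = D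
  have h5 := h1 (s t)
  generalize sgn R N (s t) = σ at h5 ⊢
  simp only [sgn]
  have h6 : σ ^ 3 = σ := by
    rw [pow_succ, h5, one_mul]
  linear_combination (σ * (A * B * D)) * hC

omit [Fintype Q] [Fintype T] in
theorem cst_cases (v : KK N Q T d) :
    (∃ i, v = Sum.inl (Sum.inl i) ∧ edk α β δ s v = none ∧ cstk cv v = cv i) ∨
      ((∀ i, v ≠ Sum.inl (Sum.inl i)) ∧ cstk cv v = 0) := by
  rcases v with (c | u) | a | ⟨t, q, i⟩ | i
  · left
    exact ⟨c, rfl, rfl, rfl⟩
  · right
    exact ⟨fun i h => by simp at h, rfl⟩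
  · right
    exact ⟨fun i h => by simp at h, rfl⟩
  · right
    exact ⟨fun i h => by simp at h, rfl⟩
  · right
    exact ⟨fun i h => by simp at h, rfl⟩

/-- **The normal form of a cubic polynomial.** -/
theorem cubic_iso [DecidableEq Q] [DecidableEq T] {a : R} (ha : a * 24 = 1)
    (hne : ∀ t, α t ≠ β t) {P : MvPolynomial (Fin N) R}
    (hP : P = ∑ t, sgn R N (s t) * (atom cv (α t) * atom cv (β t) * atom cv (δ t))) :
    ∃ κ₀ : ℕ, ∀ κ, κ₀ ≤ κ → ∃ (E : Fin κ → Finset (Fin (N + κ))) (c : Fin κ → R) (q : Q → Fin κ),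
      Function.Injective q ∧ (∀ i, (E (q i)).card = 1 ∧ c (q i) = cv i) ∧
      (∀ j, j ∉ Set.range q → c j = 0) ∧ (∀ j, (E j).card = 1 ∨ (E j).card = 3) ∧
      ∃ ψ : MvPolynomial (Fin (N + (κ + κ))) R ≃ₐ[R] MvPolynomial (Fin (N + (κ + κ))) R,
        rename (Fin.cast (Nat.add_assoc N κ κ).symm)
          (ψ (rename (Fin.castAdd (κ + κ)) P + ∑ m, yv R N m * zv R N m)) = Phi a E c := by
  classical
  refine ⟨Fintype.card (KK N Q T 0), fun κ hκ => ?_⟩
  obtain ⟨d, hd⟩ := Nat.exists_eq_add_of_le hκ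
  have hcard : Fintype.card (KK N Q T d) = κ := by
    rw [hd]
    simp only [Fintype.card_sum, Fintype.card_prod, Fintype.card_fin]
    ring
  set e := Fintype.equivFinOfCardEq hcard
  obtain ⟨ψ, hψ⟩ := tri_iso (edk (d := d) α β δ s) rkk (rk_edk α β δ s) (ne_edk α β δ s hne) a
    (cstk cv) (valk α β δ s cv) (hval_k α β δ s cv) (P := P) (by
      rw [hP]
      exact (sum_val α β δ s cv ha).symm) e
  have hcd := card_eset (edk (d := d) α β δ s) rkk (rk_edk α β δ s) (ne_edk α β δ s hne)
  refine ⟨_, _, fun i => e (Sum.inl (Sum.inl i)), fun i j hij => ?_, fun i => ⟨?_, ?_⟩,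
    fun j hj => ?_, fun j => ?_, ψ, hψ⟩
  · exact Sum.inl.inj (Sum.inl.inj (e.injective hij))
  · rw [Finset.card_map, hcd, Equiv.symm_apply_apply]
    rfl
  · beta_reduce
    rw [Equiv.symm_apply_apply]
    rfl
  · rcases cst_cases α β δ s cv (e.symm j) with ⟨i, h1, -⟩ | ⟨-, h1⟩
    · exact absurd ⟨i, (congrArg e h1.symm).trans (e.apply_symm_apply j)⟩ hj
    · exact h1
  · rw [Finset.card_map, hcd]
    cases edk α β δ s (e.symm j) with
    | none => exact Or.inl rfl
    | some p => exact Or.inr rfl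

end cubic

end Pool.Agent.Q42.CU
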