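import Pool.Agent.Q223.MM.Iso

/-!
# Cubes on a linear system

If the affine forms `L_m` in `x_1, …, x_N` solve a linear system with invertible matrix, then
`a (∑ x_i ^ 3 + ∑ L_m ^ 3)` becomes, after the addition of `κ` hyperbolic planes and an automorphism,
`a (∑ x_i ^ 3 + ∑ y_m ^ 3) + ∑ z_m e_m(x, y)`, where the `e_m` are the equations of the system.
-/

set_option autoImplicit false

namespace Pool.Agent.Q42.CU

open MvPolynomial Pool.Agent.Q223.MM

section graph

variable {R : Type} [CommRing R] {N κ : ℕ}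

/-- the equation `∑ U_mj y_j + ∑ B_mi x_i - c_m` -/
noncomputable def eqn (U : Matrix (Fin κ) (Fin κ) R) (B : Matrix (Fin κ) (Fin N) R)
    (c : Fin κ → R) (m : Fin κ) : MvPolynomial (Fin (N + (κ + κ))) R :=
  ∑ j, C (U m j) * yv R N j + (∑ i, C (B m i) * xv R κ i - C (c m))

/-- the solution `∑ V_mj (y_j - (∑ B_ji x_i - c_j))` -/
noncomputable def sol (V : Matrix (Fin κ) (Fin κ) R) (B : Matrix (Fin κ) (Fin N) R)
    (c : Fin κ → R) (m : Fin κ) : MvPolynomial (Fin (N + (κ + κ))) R :=
  ∑ j, C (V m j) * (yv R N j - (∑ i, C (B j i) * xv R κ i - C (c j)))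

/-- the substitution `y_m ↦ g_m` -/
noncomputable def sy (g : Fin κ → MvPolynomial (Fin (N + (κ + κ))) R) :
    MvPolynomial (Fin (N + (κ + κ))) R →ₐ[R] MvPolynomial (Fin (N + (κ + κ))) R :=
  aeval (assign (xv R κ) g (zv R N))

/-- the substitution `z_m ↦ g_m` -/
noncomputable def sz (g : Fin κ → MvPolynomial (Fin (N + (κ + κ))) R) :
    MvPolynomial (Fin (N + (κ + κ))) R →ₐ[R] MvPolynomial (Fin (N + (κ + κ))) R :=
  aeval (assign (xv R κ) (yv R N) g)

variable (g : Fin κ → MvPolynomial (Fin (N + (κ + κ))) R)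

theorem sy_x (i : Fin N) : sy g (xv R κ i) = xv R κ i := by
  unfold sy
  rw [show xv R κ i = X (Fin.castAdd (κ + κ) i) from rfl, aeval_X, assign_x]
  rfl

theorem sy_y (m : Fin κ) : sy g (yv R N m) = g m := by
  unfold sy
  rw [show yv R N m = X (Fin.natAdd N (Fin.castAdd κ m)) from rfl, aeval_X, assign_y]

theorem sy_z (m : Fin κ) : sy g (zv R N m) = zv R N m := by
  unfold sy
  rw [show zv R N m = X (Fin.natAdd N (Fin.natAdd κ m)) from rfl, aeval_X, assign_z]
  rfl

theorem sz_x (i : Fin N) : sz g (xv R κ i) = xv R κ i := by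
  unfold sz
  rw [show xv R κ i = X (Fin.castAdd (κ + κ) i) from rfl, aeval_X, assign_x]
  rfl

theorem sz_y (m : Fin κ) : sz g (yv R N m) = yv R N m := by
  unfold sz
  rw [show yv R N m = X (Fin.natAdd N (Fin.castAdd κ m)) from rfl, aeval_X, assign_y]
  rfl

theorem sz_z (m : Fin κ) : sz g (zv R N m) = g m := by
  unfold sz
  rw [show zv R N m = X (Fin.natAdd N (Fin.natAdd κ m)) from rfl, aeval_X, assign_z]

theorem sy_ren (p : MvPolynomial (Fin N) R) :
    sy g (rename (Fin.castAdd (κ + κ)) p) = rename (Fin.castAdd (κ + κ)) p := by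
  have h : (sy g).comp (rename (Fin.castAdd (κ + κ))) = rename (Fin.castAdd (κ + κ)) := by
    apply MvPolynomial.algHom_ext
    intro i
    rw [AlgHom.comp_apply, rename_X]
    exact sy_x g i
  exact DFunLike.congr_fun h p

theorem sz_ren (p : MvPolynomial (Fin N) R) :
    sz g (rename (Fin.castAdd (κ + κ)) p) = rename (Fin.castAdd (κ + κ)) p := by
  have h : (sz g).comp (rename (Fin.castAdd (κ + κ))) = rename (Fin.castAdd (κ + κ)) := by
    apply MvPolynomial.algHom_ext
    intro i
    rw [AlgHom.comp_apply, rename_X]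
    exact sz_x g i
  exact DFunLike.congr_fun h p

theorem C_fix (θ : MvPolynomial (Fin (N + (κ + κ))) R →ₐ[R] MvPolynomial (Fin (N + (κ + κ))) R)
    (a : R) : θ (C a) = C a := θ.commutes a

end graph

section graph2

variable {R : Type} [CommRing R] {N κ : ℕ}
  {U V : Matrix (Fin κ) (Fin κ) R} (B : Matrix (Fin κ) (Fin N) R) (c : Fin κ → R)

theorem sy_sol_eqn (h : V * U = 1) (m : Fin κ) :
    sy (eqn U B c) (sol V B c m) = yv R N m := by
  unfold sol
  rw [map_sum]
  have h1 : ∀ j, sy (eqn U B c) (C (V m j) * (yv R N j - (∑ i, C (B j i) * xv R κ i - C (c j)))) =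
      ∑ l, C (V m j * U j l) * yv R N l := by
    intro j
    rw [map_mul, map_sub, sy_y, map_sub, map_sum, C_fix, C_fix]
    have h2 : ∑ i, sy (eqn U B c) (C (B j i) * xv R κ i) = ∑ i, C (B j i) * xv R κ i :=
      Finset.sum_congr rfl fun i _ => by rw [map_mul, C_fix, sy_x]
    rw [h2]
    unfold eqn
    rw [add_sub_cancel_right, Finset.mul_sum]
    refine Finset.sum_congr rfl fun l _ => ?_
    rw [C_mul, mul_assoc]
  rw [Finset.sum_congr rfl fun j _ => h1 j, Finset.sum_comm]
  have h3 : ∀ l, ∑ j, C (V m j * U j l) * yv R N l = C ((V * U) m l) * yv R N l := by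
    intro l
    rw [← Finset.sum_mul, ← map_sum, Matrix.mul_apply]
  rw [Finset.sum_congr rfl fun l _ => h3 l, h, Finset.sum_eq_single m]
  · rw [Matrix.one_apply_eq, C_1, one_mul]
  · intro l _ hl
    rw [Matrix.one_apply_ne (Ne.symm hl), C_0, zero_mul]
  · intro hm
    exact absurd (Finset.mem_univ _) hm

theorem sy_eqn_sol (h : U * V = 1) (m : Fin κ) :
    sy (sol V B c) (eqn U B c m) = yv R N m := by
  unfold eqn
  rw [map_add, map_sub, map_sum, map_sum, C_fix]
  have h2 : ∑ i, sy (sol V B c) (C (B m i) * xv R κ i) = ∑ i, C (B m i) * xv R κ i :=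
    Finset.sum_congr rfl fun i _ => by rw [map_mul, C_fix, sy_x]
  rw [h2]
  have h1 : ∀ j, sy (sol V B c) (C (U m j) * yv R N j) =
      ∑ l, C (U m j * V j l) * (yv R N l - (∑ i, C (B l i) * xv R κ i - C (c l))) := by
    intro j
    rw [map_mul, sy_y, C_fix]
    unfold sol
    rw [Finset.mul_sum]
    refine Finset.sum_congr rfl fun l _ => ?_
    rw [C_mul, mul_assoc]
  rw [Finset.sum_congr rfl fun j _ => h1 j, Finset.sum_comm]
  have h3 : ∀ l, ∑ j, C (U m j * V j l) * (yv R N l - (∑ i, C (B l i) * xv R κ i - C (c l))) =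
      C ((U * V) m l) * (yv R N l - (∑ i, C (B l i) * xv R κ i - C (c l))) := by
    intro l
    rw [← Finset.sum_mul, ← map_sum, Matrix.mul_apply]
  rw [Finset.sum_congr rfl fun l _ => h3 l, h, Finset.sum_eq_single m]
  · rw [Matrix.one_apply_eq, C_1, one_mul, sub_add_cancel]
  · intro l _ hl
    rw [Matrix.one_apply_ne (Ne.symm hl), C_0, zero_mul]
  · intro hm
    exact absurd (Finset.mem_univ _) hm

/-- the affine automorphism -/
noncomputable def aff (h1 : U * V = 1) (h2 : V * U = 1) :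
    MvPolynomial (Fin (N + (κ + κ))) R ≃ₐ[R] MvPolynomial (Fin (N + (κ + κ))) R :=
  AlgEquiv.ofAlgHom (sy (eqn U B c)) (sy (sol V B c))
    (by
      apply MvPolynomial.algHom_ext
      refine all_vars (fun i => ?_) (fun m => ?_) (fun m => ?_)
      · rw [AlgHom.comp_apply, AlgHom.id_apply]
        exact (congrArg _ (sy_x _ i)).trans (sy_x _ i)
      · rw [AlgHom.comp_apply, AlgHom.id_apply]
        exact (congrArg _ (sy_y _ m)).trans (sy_sol_eqn B c h2 m)
      · rw [AlgHom.comp_apply, AlgHom.id_apply]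
        exact (congrArg _ (sy_z _ m)).trans (sy_z _ m))
    (by
      apply MvPolynomial.algHom_ext
      refine all_vars (fun i => ?_) (fun m => ?_) (fun m => ?_)
      · rw [AlgHom.comp_apply, AlgHom.id_apply]
        exact (congrArg _ (sy_x _ i)).trans (sy_x _ i)
      · rw [AlgHom.comp_apply, AlgHom.id_apply]
        exact (congrArg _ (sy_y _ m)).trans (sy_eqn_sol B c h1 m)
      · rw [AlgHom.comp_apply, AlgHom.id_apply]
        exact (congrArg _ (sy_z _ m)).trans (sy_z _ m))

theorem aff_apply (h1 : U * V = 1) (h2 : V * U = 1) (p : MvPolynomial (Fin (N + (κ + κ))) R) :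
    aff B c h1 h2 p = sy (eqn U B c) p := rfl

/-- the variables `x` and `y` -/
def exy (N κ : ℕ) : Fin N ⊕ Fin κ → Fin (N + (κ + κ)) :=
  Sum.elim (Fin.castAdd (κ + κ)) fun m => Fin.natAdd N (Fin.castAdd κ m)

theorem sz_exy (g : Fin κ → MvPolynomial (Fin (N + (κ + κ))) R)
    (p : MvPolynomial (Fin N ⊕ Fin κ) R) : sz g (rename (exy N κ) p) = rename (exy N κ) p := by
  have h : (sz g).comp (rename (exy N κ)) = rename (exy N κ) := by
    apply MvPolynomial.algHom_ext
    intro i
    rw [AlgHom.comp_apply, rename_X]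
    rcases i with i | m
    · exact sz_x g i
    · exact sz_y g m
  exact DFunLike.congr_fun h p

/-- the shear `z_m ↦ z_m + h_m(x, y)` -/
noncomputable def shear (h : Fin κ → MvPolynomial (Fin N ⊕ Fin κ) R) :
    MvPolynomial (Fin (N + (κ + κ))) R ≃ₐ[R] MvPolynomial (Fin (N + (κ + κ))) R :=
  AlgEquiv.ofAlgHom (sz fun m => zv R N m + rename (exy N κ) (h m))
    (sz fun m => zv R N m - rename (exy N κ) (h m))
    (by
      apply MvPolynomial.algHom_ext
      refine all_vars (fun i => ?_) (fun m => ?_) (fun m => ?_)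
      · rw [AlgHom.comp_apply, AlgHom.id_apply]
        exact (congrArg _ (sz_x _ i)).trans (sz_x _ i)
      · rw [AlgHom.comp_apply, AlgHom.id_apply]
        exact (congrArg _ (sz_y _ m)).trans (sz_y _ m)
      · rw [AlgHom.comp_apply, AlgHom.id_apply]
        refine (congrArg _ (sz_z _ m)).trans ?_
        rw [map_sub, sz_z, sz_exy, add_sub_cancel_right]
        rfl)
    (by
      apply MvPolynomial.algHom_ext
      refine all_vars (fun i => ?_) (fun m => ?_) (fun m => ?_)
      · rw [AlgHom.comp_apply, AlgHom.id_apply]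
        exact (congrArg _ (sz_x _ i)).trans (sz_x _ i)
      · rw [AlgHom.comp_apply, AlgHom.id_apply]
        exact (congrArg _ (sz_y _ m)).trans (sz_y _ m)
      · rw [AlgHom.comp_apply, AlgHom.id_apply]
        refine (congrArg _ (sz_z _ m)).trans ?_
        rw [map_add, sz_z, sz_exy, sub_add_cancel]
        rfl)

theorem shear_apply (h : Fin κ → MvPolynomial (Fin N ⊕ Fin κ) R)
    (p : MvPolynomial (Fin (N + (κ + κ))) R) :
    shear h p = sz (fun m => zv R N m + rename (exy N κ) (h m)) p := rfl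

variable (U) in
/-- `a (∑ x_i ^ 3 + ∑ y_m ^ 3) + ∑ z_m e_m` -/
noncomputable def cub (a : R) : MvPolynomial (Fin (N + (κ + κ))) R :=
  C a * (∑ i, xv R κ i ^ 3 + ∑ m, yv R N m ^ 3) + ∑ m, zv R N m * eqn U B c m

/-- the quotients `y ^ 2 + y L + L ^ 2` -/
noncomputable def quo (L : Fin κ → MvPolynomial (Fin N) R) (m : Fin κ) :
    MvPolynomial (Fin N ⊕ Fin κ) R :=
  X (Sum.inr m) ^ 2 + X (Sum.inr m) * rename Sum.inl (L m) + rename Sum.inl (L m) ^ 2

theorem ren_quo (L : Fin κ → MvPolynomial (Fin N) R) (m : Fin κ) :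
    rename (exy N κ) (quo L m) = yv R N m ^ 2 +
      yv R N m * rename (Fin.castAdd (κ + κ)) (L m) + rename (Fin.castAdd (κ + κ)) (L m) ^ 2 := by
  unfold quo
  rw [map_add, map_add, map_mul, map_pow, map_pow, rename_X, rename_rename]
  rfl

/-- **The normal form of a sum of cubes of affine forms.** -/
theorem cub_iso (a : R) (h1 : U * V = 1) (h2 : V * U = 1) {L : Fin κ → MvPolynomial (Fin N) R}
    (hL : ∀ m, ∑ j, C (U m j) * L j + (∑ i, C (B m i) * X i - C (c m)) = 0)
    {P : MvPolynomial (Fin N) R} (hP : P = C a * (∑ i, X i ^ 3 + ∑ m, L m ^ 3)) :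
    ∃ ψ : MvPolynomial (Fin (N + (κ + κ))) R ≃ₐ[R] MvPolynomial (Fin (N + (κ + κ))) R,
      ψ (rename (Fin.castAdd (κ + κ)) P + ∑ m, yv R N m * zv R N m) = cub U B c a := by
  set ρ : MvPolynomial (Fin N) R →ₐ[R] MvPolynomial (Fin (N + (κ + κ))) R :=
    rename (Fin.castAdd (κ + κ)) with hρ
  have hX : ∀ i, ρ (X i) = xv R κ i := fun i => rename_X _ _
  have hC : ∀ r : R, ρ (C r) = C r := fun r => rename_C _ _
  -- the equations in terms of `y - L`
  have e1 : ∀ m, eqn U B c m = ∑ j, C (U m j) * (yv R N j - ρ (L j)) := by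
    intro m
    have h3 := congrArg ρ (hL m)
    rw [map_zero, map_add, map_sub, map_sum, map_sum, hC] at h3
    have h4 : ∑ i, ρ (C (B m i) * X i) = ∑ i, C (B m i) * xv R κ i :=
      Finset.sum_congr rfl fun i _ => by rw [map_mul, hC, hX]
    have h5 : ∑ j, ρ (C (U m j) * L j) = ∑ j, C (U m j) * ρ (L j) :=
      Finset.sum_congr rfl fun i _ => by rw [map_mul, hC]
    rw [h4, h5] at h3
    unfold eqn
    rw [Finset.sum_congr rfl fun j _ => mul_sub (C (U m j)) (yv R N j) (ρ (L j)),
      Finset.sum_sub_distrib]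
    linear_combination h3
  have e2 : ∀ m, yv R N m - ρ (L m) = ∑ j, C (V m j) * eqn U B c j := by
    intro m
    have h3 : ∀ j, C (V m j) * eqn U B c j =
        ∑ l, C (V m j * U j l) * (yv R N l - ρ (L l)) := by
      intro j
      rw [e1 j, Finset.mul_sum]
      refine Finset.sum_congr rfl fun l _ => ?_
      rw [C_mul, mul_assoc]
    rw [Finset.sum_congr rfl fun j _ => h3 j, Finset.sum_comm]
    have h4 : ∀ l, ∑ j, C (V m j * U j l) * (yv R N l - ρ (L l)) =
        C ((V * U) m l) * (yv R N l - ρ (L l)) := by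
      intro l
      rw [← Finset.sum_mul, ← map_sum, Matrix.mul_apply]
    rw [Finset.sum_congr rfl fun l _ => h4 l, h2, Finset.sum_eq_single m]
    · rw [Matrix.one_apply_eq, C_1, one_mul]
    · intro l _ hl
      rw [Matrix.one_apply_ne (Ne.symm hl), C_0, zero_mul]
    · intro hm
      exact absurd (Finset.mem_univ _) hm
  refine ⟨(aff B c h1 h2).trans (shear fun j => C a * ∑ m, C (V m j) * quo L m), ?_⟩
  rw [AlgEquiv.trans_apply, aff_apply, shear_apply]
  have e3 : sy (eqn U B c) (ρ P + ∑ m, yv R N m * zv R N m) =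
      ρ P + ∑ m, eqn U B c m * zv R N m := by
    rw [map_add, sy_ren, map_sum]
    congr 1
    refine Finset.sum_congr rfl fun m _ => ?_
    rw [map_mul]
    exact congrArg₂ _ (sy_y _ m) (sy_z _ m)
  rw [e3]
  set θ := sz fun m => zv R N m + rename (exy N κ) (C a * ∑ l, C (V l m) * quo L l) with hθ
  have hθe : ∀ m, θ (eqn U B c m) = eqn U B c m := by
    intro m
    unfold eqn
    rw [map_add, map_sub, map_sum, map_sum, C_fix]
    congr 1
    · refine Finset.sum_congr rfl fun j _ => ?_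
      rw [map_mul, C_fix, hθ, sz_y]
    · congr 1
      refine Finset.sum_congr rfl fun j _ => ?_
      rw [map_mul, C_fix, hθ, sz_x]
  have e4 : θ (ρ P + ∑ m, eqn U B c m * zv R N m) = ρ P + ∑ m, eqn U B c m *
      (zv R N m + C a * ∑ l, C (V l m) * rename (exy N κ) (quo L l)) := by
    rw [map_add, map_sum]
    have h3 : θ (ρ P) = ρ P := sz_ren _ P
    rw [h3]
    congr 1
    refine Finset.sum_congr rfl fun m _ => ?_
    rw [map_mul, hθe m]
    congr 1
    rw [hθ, sz_z, map_mul, map_sum, rename_C]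
    congr 2
    refine Finset.sum_congr rfl fun l _ => ?_
    rw [map_mul, rename_C]
  rw [e4]
  have e5 : ∑ m, eqn U B c m * (C a * ∑ l, C (V l m) * rename (exy N κ) (quo L l)) =
      C a * ∑ l, (yv R N l ^ 3 - ρ (L l) ^ 3) := by
    have h3 : ∀ m, eqn U B c m * (C a * ∑ l, C (V l m) * rename (exy N κ) (quo L l)) =
        ∑ l, C a * ((C (V l m) * eqn U B c m) * rename (exy N κ) (quo L l)) := by
      intro m
      rw [Finset.mul_sum, Finset.mul_sum]
      refine Finset.sum_congr rfl fun l _ => ?_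
      ring
    rw [Finset.sum_congr rfl fun m _ => h3 m, Finset.sum_comm, Finset.mul_sum]
    refine Finset.sum_congr rfl fun l _ => ?_
    rw [← Finset.mul_sum, ← Finset.sum_mul, ← e2 l, ren_quo, ← hρ]
    ring
  have e6 : ρ P = C a * (∑ i, xv R κ i ^ 3 + ∑ m, ρ (L m) ^ 3) := by
    rw [hP, map_mul, map_add, map_sum, map_sum, hC]
    congr 2
    · refine Finset.sum_congr rfl fun i _ => ?_
      rw [map_pow, hX]
    · refine Finset.sum_congr rfl fun i _ => ?_
      rw [map_pow]
  have e7 : ∑ m, eqn U B c m *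
      (zv R N m + C a * ∑ l, C (V l m) * rename (exy N κ) (quo L l)) =
      ∑ m, zv R N m * eqn U B c m + C a * ∑ l, (yv R N l ^ 3 - ρ (L l) ^ 3) := by
    rw [← e5, ← Finset.sum_add_distrib]
    refine Finset.sum_congr rfl fun m _ => ?_
    ring
  rw [e7, e6]
  unfold cub
  rw [Finset.sum_sub_distrib]
  ring

end graph2

end Pool.Agent.Q42.CU
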