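import Pool.Agent.Q42.CU.Org
import Pool.Agent.Q223.TW.OrgRed

/-!
# Zeta functions at points and triple systems
-/

set_option autoImplicit false
set_option linter.unusedSectionVars false

namespace Pool.Agent.Q42.CU

open MvPolynomial Pool.Agent.Q223.MM Pool.Agent.Q223.TW Pool.Agent.H628R4.TP Pool.Agent.Y229.MS
open Pool.Agent.W428.MOT (MK Lu)
open Pool.Agent.TH192.MU (IsTopZeta)

/-! ### Germs of polynomials -/

theorem StEqO.locT {n m κ : ℕ} {f : MvPolynomial (Fin n) ℂ} {G : MvPolynomial (Fin m) ℂ}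
    (h : StEqO f κ G) (hf : f ≠ 0) (h0 : coeff 0 f = 0) (R : Type) [CommRing R] [IsDomain R]
    (E' : MK ℂ →+* R) (ε : R →+* ℂ) (h1 : ε (E' ((Lu ℂ : (MK ℂ)ˣ) : MK ℂ)) = 1)
    (h2 : E' ((Lu ℂ : (MK ℂ)ˣ) : MK ℂ) ≠ 1) :
    (WeakL E' ε G → WeakL E' ε f) ∧ (StrongL E' ε G → StrongL E' ε f) := by
  obtain ⟨e, ψ, o1, o2, hψ⟩ := h.alg
  obtain ⟨t1, t2⟩ := transferL E' ε h1 h2 hf h0 ψ ⟨o1, o2⟩ hψ
  exact ⟨fun hG => t1 ((cast_prop (P := fun m (G : MvPolynomial (Fin m) ℂ) => WeakL E' ε G) e _).2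
      hG),
    fun hG => t2 ((cast_prop (P := fun m (G : MvPolynomial (Fin m) ℂ) => StrongL E' ε G) e _).2 hG)⟩

theorem StEqO.locM {n κ m m' : ℕ} {f : MvPolynomial (Fin n) ℂ} {G : MvPolynomial (Fin m) ℂ}
    {G' : MvPolynomial (Fin m') ℂ} (h : StEqO f κ G) (h' : StEqO f (κ + 1) G') (hf : f ≠ 0)
    (h0 : coeff 0 f = 0) (h1 : WeakML G) (h2 : WeakML G') : WeakML f := by
  obtain ⟨e, ψ, o1, o2, hψ⟩ := h.alg
  obtain ⟨e', ψ', o1', o2', hψ'⟩ := h'.alg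
  exact transferO hf h0 ψ ⟨o1, o2⟩ hψ ψ' ⟨o1', o2'⟩ hψ'
    ((cast_prop (P := fun m (G : MvPolynomial (Fin m) ℂ) => WeakML G) e _).2 h1)
    ((cast_prop (P := fun m (G : MvPolynomial (Fin m) ℂ) => WeakML G) e' _).2 h2)

theorem minExp_phiL {n : ℕ} {f : MvPolynomial (Fin n) ℂ} (hf : f ≠ 0) (h0 : coeff 0 f = 0) (N : ℕ)
    {c : Polynomial ℂ} (hc0 : c ≠ 0) (hb : IsLocalBFunction f ((Polynomial.X + 1) * c)) :
    ∃ κ₁, ∀ κ, κ₁ ≤ κ → ∀ (m : ℕ) (G : MvPolynomial (Fin m) ℂ), StEqO f κ G → MinExpL N G := by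
  obtain ⟨M, hM⟩ := re_bound c
  refine ⟨M + N, fun κ hκ m G hG => ?_⟩
  obtain ⟨e, ψ, o1, -, hψ⟩ := hG.alg
  refine (cast_prop (P := fun m G => MinExpL N G) e G).1
    (minExp_L hf h0 N hc0 hb (fun r hr => ?_) ψ o1 hψ)
  have h1 : ((M + N : ℕ) : ℝ) ≤ (κ : ℝ) := by exact_mod_cast hκ
  push_cast at h1
  have h2 := hM r hr
  linarith

section field

variable {k : Type} [Field k] [Algebra k ℂ]

/-- **Normal forms of germs.** -/
theorem exists_phisL [CharZero k] (S : Set k) (hS : (1 : k) ∈ S) (N n : ℕ)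
    (f : MvPolynomial (Fin n) k) (hf : f ≠ 0) (h0 : coeff 0 f = 0)
    (hfS : ∀ d, coeff d f ∈ Submodule.span ℚ S) :
    ∃ κ₁ : ℕ, ∀ κ, κ₁ ≤ κ → ∃ (m r : ℕ) (E : Fin r → Finset (Fin m)) (c : Fin r → k)
      (p : Fin (m + r) → k), 0 < m ∧ IsTriple S E c ∧ eval p (Phi 24⁻¹ E c) = 0 ∧
      StEqO f κ (tra p (Phi 24⁻¹ E c)) ∧
      ((∃ b : Polynomial ℂ, b ≠ 0 ∧ IsLocalBFunction (map (algebraMap k ℂ) f) b) →
        MinExpL N (map (algebraMap k ℂ) (tra p (Phi 24⁻¹ E c)))) := by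
  have hf' : map (algebraMap k ℂ) f ≠ 0 := fun h => hf (map_injective _ (algebraMap k ℂ).injective
    (h.trans (map_zero _).symm))
  have h0' : coeff 0 (map (algebraMap k ℂ) f) = 0 := by rw [coeff_map, h0, map_zero]
  obtain ⟨κ₀, h1⟩ := normal_span inv24k hS f hfS
  rcases bfun_casesL hf' h0' with ⟨q, hq0, hq⟩ | hall
  · obtain ⟨κ₁, h2⟩ := minExp_phiL hf' h0' N hq0 hq
    refine ⟨max κ₀ κ₁, fun κ hκ => ?_⟩
    obtain ⟨m, r, E, c, h3, h4, h5⟩ := h1 κ ((le_max_left _ _).trans hκ)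
    obtain ⟨p, hp, h6⟩ := h5.org h0
    exact ⟨m, r, E, c, p, h3, h4, hp, h6, fun _ => h2 κ ((le_max_right _ _).trans hκ) _ _ h6.map⟩
  · refine ⟨κ₀, fun κ hκ => ?_⟩
    obtain ⟨m, r, E, c, h3, h4, h5⟩ := h1 κ hκ
    obtain ⟨p, hp, h6⟩ := h5.org h0
    exact ⟨m, r, E, c, p, h3, h4, hp, h6, fun ⟨b, hb, hb'⟩ => absurd (hall b hb') hb⟩

theorem tra_ne {m r : ℕ} (hm : 0 < m) [CharZero k] (E : Fin r → Finset (Fin m)) (c : Fin r → k)
    (p : Fin (m + r) → k) : tra p (Phi 24⁻¹ E c) ≠ 0 := by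
  intro h
  have h1 : Phi 24⁻¹ E c = 0 := (tra p).injective (h.trans (map_zero _).symm)
  have h2 := Phi_deg (a := (24⁻¹ : k)) inv24k hm E c
  rw [h1, totalDegree_zero] at h2
  exact h2 rfl

theorem tra_cc {m r : ℕ} {E : Fin r → Finset (Fin m)} {c : Fin r → k}
    {p : Fin (m + r) → k} {a : k} (h : eval p (Phi a E c) = 0) :
    coeff 0 (tra p (Phi a E c)) = 0 := by
  rw [← constantCoeff_eq, cc_tra, h]

/-! ### Points over extensions -/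

theorem cast_pt {K : Type} [Field K] [Algebra k K] {m m' : ℕ} (e : m = m')
    (G : MvPolynomial (Fin m) k) (p : Fin m' → K) :
    (StrongPt (rename (Fin.cast e) G) K p ↔ StrongPt G K fun i => p (Fin.cast e i)) ∧
      aeval p (rename (Fin.cast e) G) = aeval (fun i => p (Fin.cast e i)) G := by
  subst e
  have h : rename (Fin.cast (Eq.refl m)) G = G := rename_id_apply G
  rw [h]
  exact ⟨Iff.rfl, rfl⟩

/-- the transfer at points -/
theorem StEq.pt {n κ : ℕ} {f : MvPolynomial (Fin n) k} (hf : f.totalDegree ≠ 0) {m : ℕ → ℕ}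
    {G : ∀ j : ℕ, MvPolynomial (Fin (m j)) k} (h : ∀ j, StEq f (κ + j) (G j))
    (K : Type) [Field K] [Algebra k K] (x : Fin n → K) (h0 : aeval x f = 0) :
    ∃ p : ∀ j : ℕ, Fin (m j) → K, (∀ j, aeval (p j) (G j) = 0) ∧
      ((∀ j < 4, StrongPt (G j) K (p j)) → StrongPt f K x) := by
  choose e ψ hψ using fun j => (h j).alg
  obtain ⟨p, hp, h2⟩ := transferPt hf κ (fun j => rename (Fin.cast (e j)) (G j))
    (fun j => ⟨ψ j, hψ j⟩) K x h0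
  refine ⟨fun j i => p j (Fin.cast (e j) i), fun j => ?_, fun h3 => h2 fun j hj => ?_⟩
  · rw [← (cast_pt (e j) (G j) (p j)).2]
    exact hp j
  · exact (cast_pt (e j) (G j) (p j)).1.2 (h3 j hj)

end field

end Pool.Agent.Q42.CU
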