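import Pool.Agent.Q42.CU.StEq

/-!
# Every polynomial is stably equivalent to a sum of cubes over a triple system
-/

set_option autoImplicit false

namespace Pool.Agent.Q42.CU

open MvPolynomial Pool.Agent.Q223.MM

section coef

variable {R : Type} [CommRing R] {σ τ : Type}

/-- the polynomials with coefficients in `A` -/
def Cf (σ : Type) (A : AddSubgroup R) : AddSubgroup (MvPolynomial σ R) where
  carrier := {p | ∀ d, coeff d p ∈ A}
  add_mem' {p q} hp hq d := by
    rw [coeff_add]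
    exact A.add_mem (hp d) (hq d)
  zero_mem' d := by
    rw [coeff_zero]
    exact A.zero_mem
  neg_mem' {p} hp d := by
    rw [coeff_neg]
    exact A.neg_mem (hp d)

theorem mem_Cf {A : AddSubgroup R} {p : MvPolynomial σ R} : p ∈ Cf σ A ↔ ∀ d, coeff d p ∈ A :=
  Iff.rfl

theorem mono_Cf {A : AddSubgroup R} (d : σ →₀ ℕ) {a : R} (ha : a ∈ A) :
    monomial d a ∈ Cf σ A := by
  classical
  intro d'
  rw [coeff_monomial]
  split_ifs
  · exact ha
  · exact A.zero_mem

theorem rename_Cf {A : AddSubgroup R} (φ : σ → τ) {p : MvPolynomial σ R} (hp : p ∈ Cf σ A) :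
    rename φ p ∈ Cf τ A := by
  rw [p.as_sum, map_sum]
  refine AddSubgroup.sum_mem _ fun d _ => ?_
  rw [rename_monomial]
  exact mono_Cf _ (hp d)

theorem noC_Cf {A : AddSubgroup R} (h1 : (1 : R) ∈ A) {n : ℕ} {f : MvPolynomial (Fin n) R}
    (hf : f ∈ Cf (Fin n) A) : noC f ∈ Cf (Fin (n + (1 + 1))) A := by
  have hC : (C (coeff 0 f) : MvPolynomial (Fin n) R) ∈ Cf (Fin n) A := mono_Cf 0 (hf 0)
  unfold noC
  refine AddSubgroup.add_mem _ (rename_Cf _ (AddSubgroup.sub_mem _ hf hC))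
    (AddSubgroup.add_mem _ (AddSubgroup.sub_mem _ ?_ ?_) ?_)
  · unfold yv zv
    rw [X, X, monomial_mul, mul_one]
    exact mono_Cf _ h1
  · unfold yv
    rw [X, C_mul_monomial, mul_one]
    exact mono_Cf _ (hf 0)
  · exact mono_Cf _ h1

/-- the substitution `x_i ↦ u x_i` -/
noncomputable def scl {n : ℕ} (u : Rˣ) : MvPolynomial (Fin n) R ≃ₐ[R] MvPolynomial (Fin n) R :=
  AlgEquiv.ofAlgHom (aeval fun i => C (u : R) * X i) (aeval fun i => C ((u⁻¹ : Rˣ) : R) * X i)
    (by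
      apply MvPolynomial.algHom_ext
      intro i
      rw [AlgHom.comp_apply, aeval_X, map_mul, aeval_X, ← algebraMap_eq, AlgHom.commutes,
        algebraMap_eq, ← mul_assoc, ← C_mul, Units.inv_mul, C_1, one_mul]
      rfl)
    (by
      apply MvPolynomial.algHom_ext
      intro i
      rw [AlgHom.comp_apply, aeval_X, map_mul, aeval_X, ← algebraMap_eq, AlgHom.commutes,
        algebraMap_eq, ← mul_assoc, ← C_mul, Units.mul_inv, C_1, one_mul]
      rfl)

theorem scl_mono {n : ℕ} (u : Rˣ) (d : Fin n →₀ ℕ) (a : R) :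
    scl u (monomial d a) = monomial d (a * (u : R) ^ d.degree) := by
  have h1 : scl u (monomial d a) = aeval (fun i => C (u : R) * X i) (monomial d a) := rfl
  rw [h1, aeval_monomial, algebraMap_eq, monomial_eq, C_mul, mul_assoc]
  congr 1
  rw [Finsupp.prod, Finsupp.prod, Finset.prod_congr rfl fun i _ => mul_pow _ _ _,
    Finset.prod_mul_distrib, Finset.prod_pow_eq_pow_sum, map_pow]
  rfl

theorem scl_coeff {n : ℕ} (u : Rˣ) (p : MvPolynomial (Fin n) R) (d : Fin n →₀ ℕ) :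
    coeff d (scl u p) = coeff d p * (u : R) ^ d.degree := by
  classical
  conv_lhs => rw [p.as_sum]
  rw [map_sum, coeff_sum]
  simp only [scl_mono, coeff_monomial]
  rw [Finset.sum_ite_eq']
  split_ifs with h
  · rfl
  · rw [notMem_support_iff.1 h, zero_mul]

end coef

section main

variable {R : Type} [CommRing R]

theorem atom_inl {N : ℕ} {Q : Type} (cv : Q → R) (i : Fin N) : atom cv (Sum.inl i) = X i := rfl

theorem atom_inr {N : ℕ} {Q : Type} (cv : Q → R) (i : Q) :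
    (atom cv (Sum.inr i) : MvPolynomial (Fin N) R) = C (cv i) := rfl

/-- the program of a polynomial without constant term -/
theorem StEq.prog {S : Set R} {n : ℕ} (f : MvPolynomial (Fin n) R) (h0 : coeff 0 f = 0)
    (hf : f ∈ Cf (Fin n) (AddSubgroup.closure S)) :
    ∃ (κ : ℕ) (o : Fin κ → Option (Fin κ)) (v : Fin κ → Fin n) (c : Fin κ → R),
      (∀ m, c m ∈ coeffs S) ∧
      StEq f κ (∑ m, (C (c m) * zv R n m + yv R n m * zv R n m - yv R n m * wv R o v m)) := by
  obtain ⟨κ, o, v, c, e, ho, hc, hH⟩ := rep_all f h0 hf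
  refine ⟨κ, o, v, c, hc, rfl, Pool.Agent.Q223.MM.aut o v (fun m => e m - C ((0 : Fin κ → R) m)) ho, ?_⟩
  refine (prog_iso ho hH (0 : Fin κ → R)).trans ?_
  unfold progD
  refine Finset.sum_congr rfl fun m _ => ?_
  rw [Pi.zero_apply, map_zero, sub_zero]
  ring

/-- the first atoms of the terms of a program -/
def at1 {κ n : ℕ} {Q : Type} (_ : Fin κ → Q) : Fin κ × Fin 3 → Fin (n + (κ + κ)) ⊕ Q
  | (m, 0) => Sum.inl (Fin.natAdd n (Fin.natAdd κ m))
  | (m, 1) => Sum.inl (Fin.natAdd n (Fin.castAdd κ m))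
  | (m, 2) => Sum.inl (Fin.natAdd n (Fin.castAdd κ m))

/-- the second atoms -/
def at2 {κ n : ℕ} {Q : Type} (v : Fin κ → Fin n) (β : Fin κ → Q) :
    Fin κ × Fin 3 → Fin (n + (κ + κ)) ⊕ Q
  | (m, 0) => Sum.inr (β m)
  | (m, 1) => Sum.inl (Fin.natAdd n (Fin.natAdd κ m))
  | (m, 2) => Sum.inl (Fin.castAdd (κ + κ) (v m))

/-- the third atoms -/
def at3 {κ n : ℕ} {Q : Type} (o : Fin κ → Option (Fin κ)) (q1 : Q) :
    Fin κ × Fin 3 → Fin (n + (κ + κ)) ⊕ Q
  | (_, 0) => Sum.inr q1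
  | (_, 1) => Sum.inr q1
  | (m, 2) => (o m).elim (Sum.inr q1) fun m' => Sum.inl (Fin.natAdd n (Fin.natAdd κ m'))

/-- the signs -/
def sg {κ : ℕ} (s : Fin κ → Bool) : Fin κ × Fin 3 → Bool
  | (m, 0) => s m
  | (_, 1) => false
  | (_, 2) => true

theorem at_ne {κ n : ℕ} {Q : Type} (v : Fin κ → Fin n) (β : Fin κ → Q) (t : Fin κ × Fin 3) :
    at1 β t ≠ at2 v β t := by
  obtain ⟨m, i⟩ := t
  fin_cases i
  · simp [at1, at2]
  · intro h
    have h1 := congrArg Fin.val (Sum.inl.inj h)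
    simp at h1
    have := m.2
    omega
  · intro h
    have h1 := congrArg Fin.val (Sum.inl.inj h)
    simp at h1
    have := (v m).2
    omega

theorem prog_terms {κ n : ℕ} {Q : Type} (o : Fin κ → Option (Fin κ)) (v : Fin κ → Fin n)
    (c : Fin κ → R) (β : Fin κ → Q) (s : Fin κ → Bool) (q1 : Q) (cv : Q → R) (h1 : cv q1 = 1)
    (h : ∀ m, C (c m) = sgn R (n + (κ + κ)) (s m) * C (cv (β m))) :
    ∑ m, (C (c m) * zv R n m + yv R n m * zv R n m - yv R n m * wv R o v m) =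
      ∑ t : Fin κ × Fin 3, sgn R _ (sg s t) *
        (atom cv (at1 β t) * atom cv (at2 v β t) * atom cv (at3 (n := n) o q1 t)) := by
  rw [Fintype.sum_prod_type]
  refine Finset.sum_congr rfl fun m _ => ?_
  rw [Fin.sum_univ_three]
  simp only [sg, at1, at2, at3, atom_inl, atom_inr, h1, h m, C_1, mul_one, sgn, one_mul]
  unfold wv yv zv xv
  cases o m with
  | none =>
    simp only [Option.elim_none, atom_inr, h1, C_1]
    ring
  | some m' =>
    simp only [Option.elim_some, atom_inl]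
    ring

/-- The edges `E_j` have three elements or one, `c_j = 0` if `E_j` has three elements, and the `c_j` which
are not zero are different elements of `S`. -/
def IsTriple (S : Set R) {k r : ℕ} (E : Fin r → Finset (Fin k)) (c : Fin r → R) : Prop :=
  (∀ j, ((E j).card = 3 ∧ c j = 0) ∨ ((E j).card = 1 ∧ (c j = 0 ∨ c j ∈ S))) ∧
    ∀ i j, c i = c j → c i ≠ 0 → i = j

/-- no constant term -/
theorem normal_zero {a : R} (ha : a * 24 = 1) {S : Set R} (hS : (1 : R) ∈ S) {n : ℕ}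
    (f : MvPolynomial (Fin n) R) (h0 : coeff 0 f = 0)
    (hf : f ∈ Cf (Fin n) (AddSubgroup.closure S)) :
    ∃ κ₀ : ℕ, ∀ κ, κ₀ ≤ κ → ∃ (k r : ℕ) (E : Fin r → Finset (Fin k)) (c : Fin r → R), 0 < k ∧
      IsTriple S E c ∧ StEq f κ (Phi a E c) := by
  classical
  obtain ⟨κ₁, o, v, c, hc, h2⟩ := StEq.prog f h0 hf
  have hc1 : ∀ m, ∃ (t : R) (s : Bool), (t = 0 ∨ t ∈ S) ∧
      (C (c m) : MvPolynomial (Fin (n + (κ₁ + κ₁))) R) = sgn R _ s * C t := by
    intro m
    rcases hc m with h | h | h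
    · exact ⟨0, false, Or.inl rfl, by simp [h]⟩
    · exact ⟨c m, false, Or.inr h, by simp [sgn]⟩
    · exact ⟨-c m, true, Or.inr h, by simp [sgn]⟩
  choose t s ht hs using hc1
  set T : Finset R := (insert 1 (Finset.univ.image t)).filter fun x => x ∈ S with hT
  have h1T : (1 : R) ∈ T := Finset.mem_filter.2 ⟨Finset.mem_insert_self _ _, hS⟩
  set cv : Option T → R := fun x => x.elim 0 fun y => (y : R) with hcv
  have hβ : ∀ m, ∃ b : Option T, cv b = t m := by
    intro m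
    rcases ht m with h | h
    · exact ⟨none, h.symm⟩
    · exact ⟨some ⟨t m, Finset.mem_filter.2 ⟨Finset.mem_insert_of_mem
        (Finset.mem_image_of_mem _ (Finset.mem_univ _)), h⟩⟩, rfl⟩
  choose β hβ using hβ
  obtain ⟨κ₂, h3⟩ := cubic_iso (at1 (n := n) β) (at2 v β) (at3 o (some ⟨1, h1T⟩))
    (sg s) cv ha (at_ne v β)
    (prog_terms o v c β s (some ⟨1, h1T⟩) cv rfl fun m => by rw [hs m, hβ m])
  refine ⟨κ₁ + (κ₂ + 1), fun κ hκ => ?_⟩
  obtain ⟨κ', rfl⟩ := Nat.exists_eq_add_of_le ((Nat.le_add_right _ _).trans hκ)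
  obtain ⟨E, c', q, hq, h4, h5, h6, ψ, hψ⟩ := h3 κ' (by omega)
  refine ⟨_, κ', E, c', by omega, ⟨fun j => ?_, fun i j hij hi => ?_⟩, h2.comp ⟨by omega,
    ψ.trans (renameEquiv R (finCongr (Nat.add_assoc _ κ' κ').symm)), hψ⟩⟩
  · by_cases hj : j ∈ Set.range q
    · obtain ⟨i, rfl⟩ := hj
      right
      refine ⟨(h4 i).1, ?_⟩
      rw [(h4 i).2]
      cases i with
      | none => exact Or.inl rfl
      | some m => exact Or.inr (Finset.mem_filter.1 m.2).2
    · rcases h6 j with h7 | h7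
      · exact Or.inr ⟨h7, Or.inl (h5 j hj)⟩
      · exact Or.inl ⟨h7, h5 j hj⟩
  · have hi' : i ∈ Set.range q := by
      by_contra h
      exact hi (h5 i h)
    have hj' : j ∈ Set.range q := by
      by_contra h
      exact hi (hij.trans (h5 j h))
    obtain ⟨x, rfl⟩ := hi'
    obtain ⟨y, rfl⟩ := hj'
    rw [(h4 x).2, (h4 y).2] at hij
    rw [(h4 x).2] at hi
    congr 1
    cases x with
    | none => exact absurd rfl hi
    | some x =>
      cases y with
      | none => exact absurd hij hi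
      | some y => exact congrArg some (Subtype.ext hij)

/-- **The normal form.** -/
theorem normal_gen {a : R} (ha : a * 24 = 1) {S : Set R} (hS : (1 : R) ∈ S) {n : ℕ}
    (f : MvPolynomial (Fin n) R) (hf : f ∈ Cf (Fin n) (AddSubgroup.closure S)) :
    ∃ κ₀ : ℕ, ∀ κ, κ₀ ≤ κ → ∃ (k r : ℕ) (E : Fin r → Finset (Fin k)) (c : Fin r → R), 0 < k ∧
      IsTriple S E c ∧ StEq f κ (Phi a E c) := by
  obtain ⟨κ₀, h⟩ := normal_zero ha hS (noC f) (noC_zero f)
    (noC_Cf (AddSubgroup.subset_closure hS) hf)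
  refine ⟨1 + κ₀, fun κ hκ => ?_⟩
  obtain ⟨κ', rfl⟩ := Nat.exists_eq_add_of_le ((Nat.le_add_right _ _).trans hκ)
  obtain ⟨k, r, E, c, h1, h2, h3⟩ := h κ' (by omega)
  exact ⟨k, r, E, c, h1, h2, (StEq.noC f).comp h3⟩

theorem Phi_Cf {A : AddSubgroup R} {a : R} (ha : a ∈ A) (h1 : (1 : R) ∈ A) {k r : ℕ}
    (E : Fin r → Finset (Fin k)) (c : Fin r → R) (hc : ∀ j, c j ∈ A) : Phi a E c ∈ Cf _ A := by
  unfold Phi
  refine AddSubgroup.add_mem _ ?_ ?_
  · rw [Finset.mul_sum]
    refine AddSubgroup.sum_mem _ fun i _ => ?_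
    rw [X, monomial_pow, one_pow, C_mul_monomial, mul_one]
    exact mono_Cf _ ha
  · refine AddSubgroup.sum_mem _ fun j _ => ?_
    rw [mul_sub, Finset.mul_sum]
    refine AddSubgroup.sub_mem _ (AddSubgroup.sum_mem _ fun i _ => ?_) ?_
    · rw [X, X, monomial_mul, mul_one]
      exact mono_Cf _ h1
    · rw [mul_comm, X, C_mul_monomial, mul_one]
      exact mono_Cf _ (hc j)

theorem Phi_eval (a : R) {k r : ℕ} (E : Fin r → Finset (Fin k)) (c : Fin r → R)
    (p : Fin (k + r) → R) : eval p (Phi a E c) =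
      a * ∑ i, p (Fin.castAdd r i) ^ 3 +
        ∑ j, p (Fin.natAdd k j) * (∑ i ∈ E j, p (Fin.castAdd r i) - c j) := by
  unfold Phi
  simp only [map_add, map_mul, map_sum, map_sub, map_pow, eval_C, eval_X]

theorem Phi_deg [Nontrivial R] {a : R} (ha : a * 24 = 1) {k r : ℕ} (hk : 0 < k)
    (E : Fin r → Finset (Fin k)) (c : Fin r → R) : (Phi a E c).totalDegree ≠ 0 := by
  classical
  intro h0
  have h1 := totalDegree_eq_zero_iff_eq_C.1 h0
  have h2 := Phi_eval a E c (Fin.addCases (Pi.single ⟨0, hk⟩ 1) fun _ => 0)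
  have h3 := Phi_eval a E c (Fin.addCases (fun _ => 0) fun _ => 0)
  rw [h1, eval_C] at h2 h3
  simp only [Fin.addCases_left, Fin.addCases_right, zero_mul, Finset.sum_const_zero, add_zero,
    ne_eq, OfNat.ofNat_ne_zero, not_false_eq_true, zero_pow, mul_zero] at h2 h3
  rw [h3, Finset.sum_eq_single ⟨0, hk⟩] at h2
  · rw [Pi.single_eq_same, one_pow, mul_one] at h2
    rw [← h2, zero_mul] at ha
    exact zero_ne_one ha
  · intro j _ hj
    rw [Pi.single_eq_of_ne hj, zero_pow three_ne_zero]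
  · intro h
    exact absurd (Finset.mem_univ _) h

end main

section rat

variable {F : Type} [Field F] [CharZero F]

/-- the `ℚ`-span of `S` -/
def ratSpan (S : Set F) : AddSubgroup F := (Submodule.span ℚ S).toAddSubgroup

theorem mem_ratSpan {S : Set F} {x : F} : x ∈ ratSpan S ↔ x ∈ Submodule.span ℚ S := Iff.rfl

/-- a common denominator -/
theorem exists_den {S : Set F} {x : F} (hx : x ∈ Submodule.span ℚ S) :
    ∃ D : ℕ, D ≠ 0 ∧ (D : F) * x ∈ AddSubgroup.closure S := by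
  induction hx using Submodule.span_induction with
  | mem x hx => exact ⟨1, one_ne_zero, by rw [Nat.cast_one, one_mul]; exact AddSubgroup.subset_closure hx⟩
  | zero => exact ⟨1, one_ne_zero, by rw [mul_zero]; exact AddSubgroup.zero_mem _⟩
  | add x y _ _ hx hy =>
    obtain ⟨D, hD, h1⟩ := hx
    obtain ⟨D', hD', h2⟩ := hy
    refine ⟨D * D', mul_ne_zero hD hD', ?_⟩
    have h3 : ((D * D' : ℕ) : F) * (x + y) = D' • ((D : F) * x) + D • ((D' : F) * y) := by
      rw [nsmul_eq_mul, nsmul_eq_mul]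
      push_cast
      ring
    rw [h3]
    exact AddSubgroup.add_mem _ (AddSubgroup.nsmul_mem _ h1 _) (AddSubgroup.nsmul_mem _ h2 _)
  | smul q x _ hx =>
    obtain ⟨D, hD, h1⟩ := hx
    refine ⟨q.den * D, mul_ne_zero q.den_ne_zero hD, ?_⟩
    have h3 : ((q.den * D : ℕ) : F) * (q • x) = q.num • ((D : F) * x) := by
      rw [zsmul_eq_mul, Rat.smul_def]
      have h4 := Rat.mul_den_eq_num q
      have h5 := congrArg (fun x : ℚ => (x : F)) h4
      push_cast at h5
      rw [← h5]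
      push_cast
      ring
    rw [h3]
    exact AddSubgroup.zsmul_mem _ h1 _

theorem exists_dens {S : Set F} {n : ℕ} (f : MvPolynomial (Fin n) F)
    (hf : f ∈ Cf (Fin n) (ratSpan S)) :
    ∃ D : ℕ, D ≠ 0 ∧ ∀ d, (D : F) * coeff d f ∈ AddSubgroup.closure S := by
  classical
  choose D hD h1 using fun d => exists_den (mem_ratSpan.1 (hf d))
  refine ⟨∏ d ∈ f.support, D d, Finset.prod_ne_zero_iff.2 fun d _ => hD d, fun d => ?_⟩
  by_cases hd : d ∈ f.support
  · rw [← Finset.mul_prod_erase _ _ hd]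
    have h3 : ((D d * ∏ x ∈ f.support.erase d, D x : ℕ) : F) * coeff d f =
        (∏ x ∈ f.support.erase d, D x) • ((D d : F) * coeff d f) := by
      rw [nsmul_eq_mul]
      push_cast
      ring
    rw [h3]
    exact AddSubgroup.nsmul_mem _ (h1 d) _
  · rw [notMem_support_iff.1 hd, mul_zero]
    exact AddSubgroup.zero_mem _

/-- **The normal form over a field.** -/
theorem normal_span {a : F} (ha : a * 24 = 1) {S : Set F} (hS : (1 : F) ∈ S) {n : ℕ}
    (f : MvPolynomial (Fin n) F) (hf : f ∈ Cf (Fin n) (ratSpan S)) :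
    ∃ κ₀ : ℕ, ∀ κ, κ₀ ≤ κ → ∃ (k r : ℕ) (E : Fin r → Finset (Fin k)) (c : Fin r → F), 0 < k ∧
      IsTriple S E c ∧ StEq f κ (Phi a E c) := by
  classical
  have hg := noC_Cf (A := ratSpan S) (mem_ratSpan.2 (Submodule.subset_span hS)) hf
  have hg0 := noC_zero f
  have h1 := StEq.noC f
  generalize noC f = g at hg hg0 h1
  obtain ⟨D, hD0, hD⟩ := exists_dens g hg
  have hDF : (D : F) ≠ 0 := by exact_mod_cast hD0
  set u : Fˣ := Units.mk0 (D : F) hDF
  have h2 := StEq.aut g (scl u)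
  have h3 : scl u g ∈ Cf _ (AddSubgroup.closure S) := by
    intro d
    rw [scl_coeff]
    by_cases hd : d = 0
    · rw [hd, hg0, zero_mul]
      exact AddSubgroup.zero_mem _
    · obtain ⟨l, hl⟩ := Nat.exists_eq_succ_of_ne_zero (mt (Finsupp.degree_eq_zero_iff d).1 hd)
      have h4 : coeff d g * (u : F) ^ d.degree = (D ^ l) • ((D : F) * coeff d g) := by
        rw [hl, pow_succ', nsmul_eq_mul]
        show coeff d g * ((D : F) * (D : F) ^ l) = _
        push_cast
        ring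
      rw [h4]
      exact AddSubgroup.nsmul_mem _ (hD d) _
  have h4 : coeff 0 (scl u g) = 0 := by
    rw [scl_coeff, hg0, zero_mul]
  obtain ⟨κ₀, h⟩ := normal_zero ha hS _ h4 h3
  refine ⟨1 + 0 + κ₀, fun κ hκ => ?_⟩
  obtain ⟨κ', rfl⟩ := Nat.exists_eq_add_of_le ((Nat.le_add_right _ _).trans hκ)
  obtain ⟨k, r, E, c, h5, h6, h7⟩ := h κ' (by omega)
  exact ⟨k, r, E, c, h5, h6, (h1.comp h2).comp h7⟩

theorem Phi_span {a : F} (ha : a * 24 = 1) {S : Set F} (hS : (1 : F) ∈ S) {k r : ℕ}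
    {E : Fin r → Finset (Fin k)} {c : Fin r → F} (h : IsTriple S E c) :
    Phi a E c ∈ Cf _ (ratSpan S) := by
  have h1 : (1 : F) ∈ ratSpan S := mem_ratSpan.2 (Submodule.subset_span hS)
  refine Phi_Cf ?_ h1 E c fun j => ?_
  · have h2 : a = (24⁻¹ : ℚ) • (1 : F) := by
      rw [Rat.smul_def, mul_one]
      push_cast
      exact eq_inv_of_mul_eq_one_left ha
    rw [h2]
    exact Submodule.smul_mem _ _ h1
  · rcases h.1 j with ⟨-, h2⟩ | ⟨-, h2 | h2⟩
    · rw [h2]
      exact AddSubgroup.zero_mem _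
    · rw [h2]
      exact AddSubgroup.zero_mem _
    · exact Submodule.subset_span h2

end rat

end Pool.Agent.Q42.CU
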