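import Pool.Agent.Q42.CU.Mot

/-!
# Germs
-/

set_option autoImplicit false
set_option linter.unusedSectionVars false

namespace Pool.Agent.Q42.CU

open MvPolynomial Pool.Agent.Q223.MM

section org

variable {R : Type} [CommRing R]

/-- `f` with `κ` hyperbolic planes is equivalent to `F`, with an isomorphism which fixes the origin -/
def StEqO {n m : ℕ} (f : MvPolynomial (Fin n) R) (κ : ℕ) (F : MvPolynomial (Fin m) R) : Prop :=
  m = n + (κ + κ) ∧ ∃ ψ : MvPolynomial (Fin (n + (κ + κ))) R ≃ₐ[R] MvPolynomial (Fin m) R,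
    (∀ i, constantCoeff (ψ (X i)) = 0) ∧ (∀ i, constantCoeff (ψ.symm (X i)) = 0) ∧
      ψ (stb f κ) = F

theorem cc_hom {a b : ℕ} (φ : MvPolynomial (Fin a) R →ₐ[R] MvPolynomial (Fin b) R)
    (g : MvPolynomial (Fin a) R) :
    constantCoeff (φ g) = eval (fun i => constantCoeff (φ (X i))) g := by
  have h : ((constantCoeff : MvPolynomial (Fin b) R →+* R).comp
      (φ : MvPolynomial (Fin a) R →+* MvPolynomial (Fin b) R)) =
      eval fun i => constantCoeff (φ (X i)) := by
    apply MvPolynomial.ringHom_ext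
    · intro r
      rw [RingHom.comp_apply, eval_C]
      have h2 : (φ : MvPolynomial (Fin a) R →+* MvPolynomial (Fin b) R) (C r) = C r := φ.commutes r
      rw [h2, constantCoeff_C]
    · intro i
      rw [RingHom.comp_apply, eval_X]
      rfl
  exact DFunLike.congr_fun h g

theorem eval_hom {a b : ℕ} (φ : MvPolynomial (Fin a) R →ₐ[R] MvPolynomial (Fin b) R)
    (p : Fin b → R) (g : MvPolynomial (Fin a) R) :
    eval p (φ g) = eval (fun i => eval p (φ (X i))) g := by
  have h : ((eval p : MvPolynomial (Fin b) R →+* R).comp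
      (φ : MvPolynomial (Fin a) R →+* MvPolynomial (Fin b) R)) =
      eval fun i => eval p (φ (X i)) := by
    apply MvPolynomial.ringHom_ext
    · intro r
      rw [RingHom.comp_apply, eval_C]
      have h2 : (φ : MvPolynomial (Fin a) R →+* MvPolynomial (Fin b) R) (C r) = C r := φ.commutes r
      rw [h2, eval_C]
    · intro i
      rw [RingHom.comp_apply, eval_X]
      rfl
  exact DFunLike.congr_fun h g

theorem cc_tra {n : ℕ} (p : Fin n → R) (g : MvPolynomial (Fin n) R) :
    constantCoeff (tra p g) = eval p g := by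
  have h := cc_hom (tra p).toAlgHom g
  refine h.trans ?_
  congr 1
  congr 1
  funext i
  show constantCoeff (tra p (X i)) = p i
  rw [tra_X, map_add, constantCoeff_X, constantCoeff_C, zero_add]

theorem tra_symm_X {n : ℕ} (p : Fin n → R) (i : Fin n) : (tra p).symm (X i) = X i - C (p i) :=
  aeval_X _ _

/-- **Germs of `F` at its points.** -/
theorem StEq.org {n m κ : ℕ} {f : MvPolynomial (Fin n) R} {F : MvPolynomial (Fin m) R}
    (h : StEq f κ F) (h0 : coeff 0 f = 0) :
    ∃ p : Fin m → R, eval p F = 0 ∧ StEqO f κ (tra p F) := by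
  obtain ⟨e, ψ, hψ⟩ := h
  set p : Fin m → R := fun i => constantCoeff (ψ.symm (X i)) with hp
  have h1 : ∀ g, eval p g = constantCoeff (ψ.symm g) := fun g =>
    (cc_hom ψ.symm.toAlgHom g).symm
  refine ⟨p, ?_, e, ψ.trans (tra p), fun i => ?_, fun i => ?_, ?_⟩
  · rw [h1, ← hψ, AlgEquiv.symm_apply_apply]
    unfold stb
    rw [map_add, map_sum, constantCoeff_rename, constantCoeff_eq, h0, zero_add]
    refine Finset.sum_eq_zero fun j _ => ?_
    unfold yv
    rw [map_mul, constantCoeff_X, zero_mul]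
  · rw [AlgEquiv.trans_apply, cc_tra, h1, AlgEquiv.symm_apply_apply, constantCoeff_X]
  · show constantCoeff (ψ.symm ((tra p).symm (X i))) = 0
    rw [tra_symm_X, map_sub, map_sub]
    have h2 : ψ.symm (C (p i)) = C (p i) := ψ.symm.commutes (p i)
    rw [h2, constantCoeff_C]
    exact sub_self _
  · rw [AlgEquiv.trans_apply, hψ]

/-- a stable equivalence of germs as an automorphism -/
theorem StEqO.alg {n m κ : ℕ} {f : MvPolynomial (Fin n) R} {G : MvPolynomial (Fin m) R}
    (h : StEqO f κ G) : ∃ (e : m = n + (κ + κ))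
      (ψ : MvPolynomial (Fin (n + (κ + κ))) R ≃ₐ[R] MvPolynomial (Fin (n + (κ + κ))) R),
      (∀ i, constantCoeff (ψ (X i)) = 0) ∧ (∀ i, constantCoeff (ψ.symm (X i)) = 0) ∧
      ψ (stb f κ) = rename (Fin.cast e) G := by
  obtain ⟨e, ψ, h1, h2, h⟩ := h
  refine ⟨e, ψ.trans (renameEquiv R (finCongr e)), fun i => ?_, fun i => ?_,
    congrArg (rename (Fin.cast e)) h⟩
  · show constantCoeff (rename (Fin.cast e) (ψ (X i))) = 0
    rw [constantCoeff_rename]
    exact h1 i
  · show constantCoeff (ψ.symm (rename (finCongr e).symm (X i))) = 0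
    rw [rename_X]
    exact h2 _

end org

section map

variable {k K : Type} [Field k] [Field K] [Algebra k K]

theorem map_stb {n : ℕ} (f : MvPolynomial (Fin n) k) (κ : ℕ) :
    map (algebraMap k K) (stb f κ) = stb (map (algebraMap k K) f) κ := by
  unfold stb yv zv
  rw [map_add, map_sum, map_rename]
  congr 1
  refine Finset.sum_congr rfl fun j _ => ?_
  rw [map_mul, map_X, map_X]

theorem StEqO.map {n m κ : ℕ} {f : MvPolynomial (Fin n) k} {G : MvPolynomial (Fin m) k}
    (h : StEqO f κ G) : StEqO (map (algebraMap k K) f) κ (MvPolynomial.map (algebraMap k K) G) := by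
  obtain ⟨e, ψ, h1, h2, h⟩ := h
  obtain ⟨ψ', hψ'⟩ := Pool.Agent.Y405.MS.bc k K ψ
  refine ⟨e, ψ', fun i => ?_, fun i => ?_, ?_⟩
  · rw [← map_X (algebraMap k K) i, hψ', constantCoeff_map, h1, map_zero]
  · have h3 : ψ'.symm (X i) = MvPolynomial.map (algebraMap k K) (ψ.symm (X i)) := by
      rw [AlgEquiv.symm_apply_eq, hψ', AlgEquiv.apply_symm_apply, map_X]
    rw [h3, constantCoeff_map, h2, map_zero]
  · rw [← map_stb, hψ', h]

end map

end Pool.Agent.Q42.CU
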