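import Pool.Agent.Q42.CU.Normal
import Pool.Agent.Q223.MM.Red

/-!
# Reduction to triple systems
-/

set_option autoImplicit false

namespace Pool.Agent.Q42.CU

open MvPolynomial Pool.Agent.Q223.MM Pool.Agent.H628R4.TP Pool.Agent.Y229.MS

section cast

variable {R : Type} [CommRing R]

/-- a stable equivalence as an automorphism -/
theorem StEq.alg {n m κ : ℕ} {f : MvPolynomial (Fin n) R} {G : MvPolynomial (Fin m) R}
    (h : StEq f κ G) : ∃ (e : m = n + (κ + κ))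
      (ψ : MvPolynomial (Fin (n + (κ + κ))) R ≃ₐ[R] MvPolynomial (Fin (n + (κ + κ))) R),
      ψ (stb f κ) = rename (Fin.cast e) G := by
  obtain ⟨e, ψ, h⟩ := h
  exact ⟨e, ψ.trans (renameEquiv R (finCongr e)), congrArg (rename (Fin.cast e)) h⟩

theorem cast_prop {P : ∀ m : ℕ, MvPolynomial (Fin m) R → Prop} {m m' : ℕ} (e : m = m')
    (G : MvPolynomial (Fin m) R) : P m' (rename (Fin.cast e) G) ↔ P m G := by
  subst e
  have h : rename (Fin.cast (Eq.refl m)) G = G := rename_id_apply G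
  rw [h]

end cast

theorem inv24 : (24⁻¹ : ℂ) * 24 = 1 := by norm_num

theorem minExp_phi {n : ℕ} {f : MvPolynomial (Fin n) ℂ} (hf : f.totalDegree ≠ 0) (N : ℕ)
    {c : Polynomial ℂ} (hc0 : c ≠ 0) (hb : IsBFunction f ((Polynomial.X + 1) * c)) :
    ∃ κ₁, ∀ κ, κ₁ ≤ κ → ∀ (m : ℕ) (G : MvPolynomial (Fin m) ℂ), StEq f κ G → MinExp N G := by
  obtain ⟨M, hM⟩ := re_bound c
  refine ⟨M + N, fun κ hκ m G hG => ?_⟩
  obtain ⟨e, ψ, hψ⟩ := hG.alg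
  refine (cast_prop (P := fun m G => MinExp N G) e G).1 (minExp_prog hf N hc0 hb (fun r hr => ?_) ψ hψ)
  have h1 : ((M + N : ℕ) : ℝ) ≤ (κ : ℝ) := by exact_mod_cast hκ
  push_cast at h1
  have h2 := hM r hr
  linarith

/-- **Normal forms with large minimal exponent.** -/
theorem exists_phis (S : Set ℂ) (hS : (1 : ℂ) ∈ S) (N n : ℕ)
    (f : MvPolynomial (Fin n) ℂ) (hf : f.totalDegree ≠ 0)
    (hfS : ∀ d, coeff d f ∈ Submodule.span ℚ S) :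
    ∃ κ₁ : ℕ, ∀ κ, κ₁ ≤ κ → ∃ (k r : ℕ) (E : Fin r → Finset (Fin k)) (c : Fin r → ℂ), 0 < k ∧
      IsTriple S E c ∧ StEq f κ (Phi 24⁻¹ E c) ∧
      ((∃ b : Polynomial ℂ, b ≠ 0 ∧ IsBFunction f b) → MinExp N (Phi 24⁻¹ E c)) := by
  obtain ⟨κ₀, h0⟩ := normal_span inv24 hS f hfS
  rcases bfun_cases hf with ⟨p, hp0, hp⟩ | hall
  · obtain ⟨κ₁, h1⟩ := minExp_phi hf N hp0 hp
    refine ⟨max κ₀ κ₁, fun κ hκ => ?_⟩
    obtain ⟨k, r, E, c, h2, h3, h4⟩ := h0 κ ((le_max_left _ _).trans hκ)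
    exact ⟨k, r, E, c, h2, h3, h4, fun _ => h1 κ ((le_max_right _ _).trans hκ) _ _ h4⟩
  · refine ⟨κ₀, fun κ hκ => ?_⟩
    obtain ⟨k, r, E, c, h2, h3, h4⟩ := h0 κ hκ
    exact ⟨k, r, E, c, h2, h3, h4, fun ⟨b, hb, hb'⟩ => absurd (hall b hb') hb⟩

/-- properties which are inherited from `f + ∑ y_m z_m` -/
theorem StEq.inherit {n m κ : ℕ} {f : MvPolynomial (Fin n) ℂ} {G : MvPolynomial (Fin m) ℂ}
    (h : StEq f κ G) (P : ∀ m : ℕ, MvPolynomial (Fin m) ℂ → Prop)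
    (hP : ∀ (F : MvPolynomial (Fin (n + (κ + κ))) ℂ)
      (ψ : MvPolynomial (Fin (n + (κ + κ))) ℂ ≃ₐ[ℂ] MvPolynomial (Fin (n + (κ + κ))) ℂ),
      ψ (stabK f κ) = F → P _ F → P n f) (hG : P m G) : P n f := by
  obtain ⟨e, ψ, hψ⟩ := h.alg
  exact hP _ ψ hψ ((cast_prop e _).2 hG)

end Pool.Agent.Q42.CU
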