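import Pool.Agent.Q42.CU.Cubic

/-!
# Stable equivalence of polynomials
-/

set_option autoImplicit false

namespace Pool.Agent.Q42.CU

open MvPolynomial Pool.Agent.Q223.MM

section steq

variable {R : Type} [CommRing R]

/-- `f + ∑ y_m z_m` -/
noncomputable def stb {n : ℕ} (f : MvPolynomial (Fin n) R) (κ : ℕ) :
    MvPolynomial (Fin (n + (κ + κ))) R :=
  rename (Fin.castAdd (κ + κ)) f + ∑ m, yv R n m * zv R n m

/-- `f` with `κ` hyperbolic planes is equivalent to `F` -/
def StEq {n m : ℕ} (f : MvPolynomial (Fin n) R) (κ : ℕ) (F : MvPolynomial (Fin m) R) : Prop :=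
  m = n + (κ + κ) ∧ ∃ ψ : MvPolynomial (Fin (n + (κ + κ))) R ≃ₐ[R] MvPolynomial (Fin m) R,
    ψ (stb f κ) = F

/-- the extension of a homomorphism by the identity on new variables -/
noncomputable def extH {a b : ℕ} (c : ℕ)
    (φ : MvPolynomial (Fin a) R →ₐ[R] MvPolynomial (Fin b) R) :
    MvPolynomial (Fin (a + c)) R →ₐ[R] MvPolynomial (Fin (b + c)) R :=
  aeval (Fin.addCases (fun i => rename (Fin.castAdd c) (φ (X i))) fun j => X (Fin.natAdd b j))

theorem extH_old {a b : ℕ} (c : ℕ) (φ : MvPolynomial (Fin a) R →ₐ[R] MvPolynomial (Fin b) R)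
    (p : MvPolynomial (Fin a) R) :
    extH c φ (rename (Fin.castAdd c) p) = rename (Fin.castAdd c) (φ p) := by
  have h : (extH c φ).comp (rename (Fin.castAdd c)) = (rename (Fin.castAdd c)).comp φ := by
    apply MvPolynomial.algHom_ext
    intro i
    rw [AlgHom.comp_apply, AlgHom.comp_apply, rename_X]
    unfold extH
    rw [aeval_X, Fin.addCases_left]
  exact DFunLike.congr_fun h p

theorem extH_new {a b : ℕ} (c : ℕ) (φ : MvPolynomial (Fin a) R →ₐ[R] MvPolynomial (Fin b) R)
    (j : Fin c) : extH c φ (X (Fin.natAdd a j)) = X (Fin.natAdd b j) := by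
  unfold extH
  rw [aeval_X, Fin.addCases_right]

theorem extH_comp {a b : ℕ} (c : ℕ) (φ : MvPolynomial (Fin a) R →ₐ[R] MvPolynomial (Fin b) R)
    (χ : MvPolynomial (Fin b) R →ₐ[R] MvPolynomial (Fin a) R) (h : χ.comp φ = AlgHom.id R _) :
    (extH c χ).comp (extH c φ) = AlgHom.id R _ := by
  apply MvPolynomial.algHom_ext
  intro i
  rw [AlgHom.comp_apply, AlgHom.id_apply]
  refine Fin.addCases (fun i => ?_) (fun j => ?_) i
  · have h1 : (X (Fin.castAdd c i) : MvPolynomial (Fin (a + c)) R) =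
        rename (Fin.castAdd c) (X i) := (rename_X _ _).symm
    have h2 : χ (φ (X i)) = X i := DFunLike.congr_fun h (X i)
    rw [h1, extH_old, extH_old, h2]
  · rw [extH_new, extH_new]

/-- the extension of an isomorphism -/
noncomputable def ext {a b : ℕ} (c : ℕ) (ψ : MvPolynomial (Fin a) R ≃ₐ[R] MvPolynomial (Fin b) R) :
    MvPolynomial (Fin (a + c)) R ≃ₐ[R] MvPolynomial (Fin (b + c)) R :=
  AlgEquiv.ofAlgHom (extH c ψ.toAlgHom) (extH c ψ.symm.toAlgHom)
    (extH_comp c _ _ (by ext1 i; simp)) (extH_comp c _ _ (by ext1 i; simp))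

theorem ext_old {a b : ℕ} (c : ℕ) (ψ : MvPolynomial (Fin a) R ≃ₐ[R] MvPolynomial (Fin b) R)
    (p : MvPolynomial (Fin a) R) :
    ext c ψ (rename (Fin.castAdd c) p) = rename (Fin.castAdd c) (ψ p) :=
  extH_old c ψ.toAlgHom p

theorem ext_new {a b : ℕ} (c : ℕ) (ψ : MvPolynomial (Fin a) R ≃ₐ[R] MvPolynomial (Fin b) R)
    (j : Fin c) : ext c ψ (X (Fin.natAdd a j)) = X (Fin.natAdd b j) :=
  extH_new c ψ.toAlgHom j

/-- the permutation of the variables -/
noncomputable def prm (n κ κ' : ℕ) :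
    Fin (n + ((κ + κ') + (κ + κ'))) → Fin (n + (κ + κ) + (κ' + κ')) :=
  assign (fun i => Fin.castAdd _ (Fin.castAdd _ i))
    (Fin.addCases (fun m => Fin.castAdd _ (Fin.natAdd n (Fin.castAdd κ m)))
      fun m => Fin.natAdd _ (Fin.castAdd κ' m))
    (Fin.addCases (fun m => Fin.castAdd _ (Fin.natAdd n (Fin.natAdd κ m)))
      fun m => Fin.natAdd _ (Fin.natAdd κ' m))

/-- its inverse -/
noncomputable def mrp (n κ κ' : ℕ) :
    Fin (n + (κ + κ) + (κ' + κ')) → Fin (n + ((κ + κ') + (κ + κ'))) :=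
  Fin.addCases
    (assign (fun i => Fin.castAdd _ i) (fun m => Fin.natAdd n (Fin.castAdd _ (Fin.castAdd κ' m)))
      fun m => Fin.natAdd n (Fin.natAdd _ (Fin.castAdd κ' m)))
    (Fin.addCases (fun m => Fin.natAdd n (Fin.castAdd _ (Fin.natAdd κ m)))
      fun m => Fin.natAdd n (Fin.natAdd _ (Fin.natAdd κ m)))

theorem mrp_prm (n κ κ' : ℕ) (i : Fin (n + ((κ + κ') + (κ + κ')))) :
    mrp n κ κ' (prm n κ κ' i) = i := by
  revert i
  refine all_vars (fun i => ?_) (fun m => ?_) (fun m => ?_)
  · unfold prm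
    rw [assign_x]
    unfold mrp
    rw [Fin.addCases_left, assign_x]
  · unfold prm
    rw [assign_y]
    refine Fin.addCases (fun m => ?_) (fun m => ?_) m
    · rw [Fin.addCases_left]
      unfold mrp
      rw [Fin.addCases_left, assign_y]
    · rw [Fin.addCases_right]
      unfold mrp
      rw [Fin.addCases_right, Fin.addCases_left]
  · unfold prm
    rw [assign_z]
    refine Fin.addCases (fun m => ?_) (fun m => ?_) m
    · rw [Fin.addCases_left]
      unfold mrp
      rw [Fin.addCases_left, assign_z]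
    · rw [Fin.addCases_right]
      unfold mrp
      rw [Fin.addCases_right, Fin.addCases_right]

/-- the permutation as an equivalence -/
noncomputable def prmE (n κ κ' : ℕ) :
    Fin (n + ((κ + κ') + (κ + κ'))) ≃ Fin (n + (κ + κ) + (κ' + κ')) :=
  Equiv.ofBijective (prm n κ κ')
    ((Fintype.bijective_iff_injective_and_card _).2 ⟨Function.LeftInverse.injective (mrp_prm n κ κ'),
      by simp only [Fintype.card_fin]; ring⟩)

theorem prm_stb {n : ℕ} (f : MvPolynomial (Fin n) R) (κ κ' : ℕ) :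
    rename (prm n κ κ') (stb f (κ + κ')) =
      rename (Fin.castAdd (κ' + κ')) (stb f κ) + ∑ m, yv R (n + (κ + κ)) m * zv R _ m := by
  unfold stb
  rw [map_add, map_add, map_sum, Fin.sum_univ_add, rename_rename, rename_rename,
    add_assoc (rename _ f)]
  have e1 : ∀ i, prm n κ κ' (Fin.castAdd _ i) = Fin.castAdd _ (Fin.castAdd _ i) := by
    intro i
    unfold prm
    rw [assign_x]
  congr 1
  · congr 1
    congr 1
    funext i
    exact e1 i
  · rw [map_sum]
    congr 1
    · refine Finset.sum_congr rfl fun m _ => ?_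
      rw [map_mul, map_mul]
      congr 1
      · unfold yv
        rw [rename_X, rename_X]
        unfold prm
        rw [assign_y, Fin.addCases_left]
      · unfold zv
        rw [rename_X, rename_X]
        unfold prm
        rw [assign_z, Fin.addCases_left]
    · refine Finset.sum_congr rfl fun m _ => ?_
      rw [map_mul]
      congr 1
      · unfold yv
        rw [rename_X]
        unfold prm
        rw [assign_y, Fin.addCases_right]
      · unfold zv
        rw [rename_X]
        unfold prm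
        rw [assign_z, Fin.addCases_right]

theorem StEq.comp {n m l κ κ' : ℕ} {f : MvPolynomial (Fin n) R} {g : MvPolynomial (Fin m) R}
    {F : MvPolynomial (Fin l) R} (h1 : StEq f κ g) (h2 : StEq g κ' F) : StEq f (κ + κ') F := by
  obtain ⟨e1, ψ1, h1⟩ := h1
  obtain ⟨e2, ψ2, h2⟩ := h2
  refine ⟨by omega, ((renameEquiv R (prmE n κ κ')).trans (ext (κ' + κ') ψ1)).trans ψ2, ?_⟩
  rw [AlgEquiv.trans_apply, AlgEquiv.trans_apply, ← h2]
  congr 1
  have h3 : renameEquiv R (prmE n κ κ') (stb f (κ + κ')) = rename (prm n κ κ') (stb f (κ + κ')) :=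
    rfl
  rw [h3, prm_stb, map_add, ext_old, h1, map_sum]
  unfold stb
  congr 1
  refine Finset.sum_congr rfl fun j _ => ?_
  rw [map_mul]
  congr 1
  · exact ext_new _ _ _
  · exact ext_new _ _ _

theorem StEq.aut {n : ℕ} (f : MvPolynomial (Fin n) R)
    (τ : MvPolynomial (Fin n) R ≃ₐ[R] MvPolynomial (Fin n) R) : StEq f 0 (τ f) := by
  refine ⟨rfl, τ, ?_⟩
  congr 1
  unfold stb
  have h1 : ∑ m : Fin 0, yv R n m * zv R n m = 0 := Fin.sum_univ_zero _
  rw [h1]
  exact (add_zero _).trans (rename_id_apply f)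

/-- the translation by `p` -/
noncomputable def tra {n : ℕ} (p : Fin n → R) :
    MvPolynomial (Fin n) R ≃ₐ[R] MvPolynomial (Fin n) R :=
  AlgEquiv.ofAlgHom (aeval fun i => X i + C (p i)) (aeval fun i => X i - C (p i))
    (by
      apply MvPolynomial.algHom_ext
      intro i
      rw [AlgHom.comp_apply, aeval_X, map_sub, aeval_X, ← algebraMap_eq, AlgHom.commutes,
        add_sub_cancel_right]
      rfl)
    (by
      apply MvPolynomial.algHom_ext
      intro i
      rw [AlgHom.comp_apply, aeval_X, map_add, aeval_X, ← algebraMap_eq, AlgHom.commutes,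
        sub_add_cancel]
      rfl)

theorem tra_X {n : ℕ} (p : Fin n → R) (i : Fin n) : tra p (X i) = X i + C (p i) := aeval_X _ _

/-- `f - f(0) + y z - f(0) y + z` -/
noncomputable def noC {n : ℕ} (f : MvPolynomial (Fin n) R) : MvPolynomial (Fin (n + (1 + 1))) R :=
  rename (Fin.castAdd (1 + 1)) (f - C (coeff 0 f)) +
    (yv R n 0 * zv R n 0 - C (coeff 0 f) * yv R n 0 + zv R n 0)

theorem StEq.noC {n : ℕ} (f : MvPolynomial (Fin n) R) : StEq f 1 (noC f) := by
  refine ⟨rfl, tra (assign (fun _ => 0) (fun _ => 1) fun _ => -coeff 0 f), ?_⟩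
  set τ : MvPolynomial (Fin (n + (1 + 1))) R ≃ₐ[R] MvPolynomial (Fin (n + (1 + 1))) R :=
    tra (assign (fun _ => 0) (fun _ => 1) fun _ => -coeff 0 f) with hτ
  have h1 : ∀ i, τ (xv R 1 i) = xv R 1 i := by
    intro i
    rw [hτ]
    unfold xv
    rw [tra_X, assign_x, C_0, add_zero]
  have h2 : τ (yv R n 0) = yv R n 0 + 1 := by
    rw [hτ]
    unfold yv
    rw [tra_X, assign_y, C_1]
  have h3 : τ (zv R n 0) = zv R n 0 - C (coeff 0 f) := by
    rw [hτ]
    unfold zv
    rw [tra_X, assign_z, C_neg, sub_eq_add_neg]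
  have h4 : τ (rename (Fin.castAdd (1 + 1)) f) = rename (Fin.castAdd (1 + 1)) f := by
    have h : τ.toAlgHom.comp (rename (Fin.castAdd (1 + 1))) = rename (Fin.castAdd (1 + 1)) := by
      apply MvPolynomial.algHom_ext
      intro i
      rw [AlgHom.comp_apply, rename_X]
      exact h1 i
    exact DFunLike.congr_fun h f
  unfold stb
  rw [Fin.sum_univ_one, map_add, map_mul, h2, h3, h4]
  unfold CU.noC
  rw [map_sub, rename_C]
  ring

theorem noC_zero {n : ℕ} (f : MvPolynomial (Fin n) R) : coeff 0 (noC f) = 0 := by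
  rw [← constantCoeff_eq]
  unfold noC yv zv
  rw [map_add, map_add (constantCoeff (R := R)) (_ - _), map_sub (constantCoeff (R := R)),
    map_mul, map_mul, constantCoeff_X, constantCoeff_X,
    constantCoeff_rename, map_sub, constantCoeff_C, constantCoeff_eq]
  ring

end steq

end Pool.Agent.Q42.CU
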