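import Pool.Agent.Q42.CU.Graph

/-!
# Triangular triple systems

Every unknown `v` of the system is either a constant or determined by an equation `v + p + q = 0` with
two unknowns `p`, `q` of smaller rank or variables `x_i`.
-/

set_option autoImplicit false

namespace Pool.Agent.Q42.CU

open MvPolynomial Pool.Agent.Q223.MM

/-- `a (x_1 ^ 3 + ⋯ + x_k ^ 3) + ∑ y_j (∑ x_i - c_j)`, where the inner sum is over `i ∈ E_j` -/
noncomputable def Phi {R : Type} [CommRing R] (a : R) {k r : ℕ} (E : Fin r → Finset (Fin k))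
    (c : Fin r → R) : MvPolynomial (Fin (k + r)) R :=
  C a * ∑ i, X (Fin.castAdd r i) ^ 3 +
    ∑ j, X (Fin.natAdd k j) * (∑ i ∈ E j, X (Fin.castAdd r i) - C (c j))

section tri

variable {R : Type} [CommRing R] {N : ℕ} {K : Type} [Fintype K] [DecidableEq K]
  (ed : K → Option ((Fin N ⊕ K) × (Fin N ⊕ K)))

/-- the edge of `v` -/
def eset (v : K) : Finset (Fin N ⊕ K) :=
  insert (Sum.inr v) ((ed v).elim ∅ fun p => {p.1, p.2})

/-- the nilpotent part of the matrix -/
def nil (R : Type) [CommRing R] (v w : K) : R :=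
  (ed v).elim 0 fun p => (if p.1 = Sum.inr w then 1 else 0) + (if p.2 = Sum.inr w then 1 else 0)

/-- the coefficients of the inputs -/
def inp (R : Type) [CommRing R] (v : K) (i : Fin N) : R :=
  (ed v).elim 0 fun p => (if p.1 = Sum.inl i then 1 else 0) + (if p.2 = Sum.inl i then 1 else 0)

variable (rk : K → ℕ) (hrk : ∀ v p, ed v = some p → (∀ w, p.1 = Sum.inr w → rk w < rk v) ∧
  ∀ w, p.2 = Sum.inr w → rk w < rk v)

include hrk in
theorem nil_rk {v w : K} (h : nil ed R v w ≠ 0) : rk w + 1 ≤ rk v := by
  unfold nil at h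
  cases hv : ed v with
  | none =>
    rw [hv] at h
    exact absurd rfl h
  | some p =>
    rw [hv] at h
    obtain ⟨h1, h2⟩ := hrk v p hv
    simp only [Option.elim_some] at h
    by_cases h3 : p.1 = Sum.inr w
    · exact h1 w h3
    · by_cases h4 : p.2 = Sum.inr w
      · exact h2 w h4
      · rw [if_neg h3, if_neg h4, add_zero] at h
        exact absurd rfl h

include hrk in
theorem nil_pow (m : ℕ) : ∀ v w : K, ((Matrix.of (nil ed R)) ^ m) v w ≠ 0 → rk w + m ≤ rk v := by
  induction m with
  | zero =>
    intro v w h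
    rw [pow_zero] at h
    by_cases hvw : v = w
    · rw [hvw]
      exact le_rfl
    · rw [Matrix.one_apply_ne hvw] at h
      exact absurd rfl h
  | succ m ih =>
    intro v w h
    rw [pow_succ, Matrix.mul_apply] at h
    obtain ⟨u, -, hu⟩ := Finset.exists_ne_zero_of_sum_ne_zero h
    have h1 := ih v u (left_ne_zero_of_mul hu)
    have h2 := nil_rk ed rk hrk (R := R) (right_ne_zero_of_mul hu)
    omega

include hrk in
theorem exists_inv : ∃ V : Matrix K K R, (1 + Matrix.of (nil ed R)) * V = 1 ∧
    V * (1 + Matrix.of (nil ed R)) = 1 := by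
  have h1 : IsNilpotent (Matrix.of (nil ed R)) := by
    refine ⟨∑ v, rk v + 1, ?_⟩
    ext v w
    by_contra h
    have h2 := nil_pow ed rk hrk (R := R) _ v w h
    have h3 : rk v ≤ ∑ v, rk v := Finset.single_le_sum (fun _ _ => Nat.zero_le _) (Finset.mem_univ v)
    omega
  obtain ⟨u, hu⟩ := h1.isUnit_one_add
  refine ⟨((u⁻¹ : (Matrix K K R)ˣ) : Matrix K K R), ?_, ?_⟩
  · rw [← hu]
    exact u.mul_inv
  · rw [← hu]
    exact u.inv_mul

theorem sum_nil {A : Type} [CommRing A] (θ : R →+* A) (F : K → A) (G : Fin N → A) (v : K) :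
    ∑ w, θ ((1 + Matrix.of (nil ed R)) v w) * F w + ∑ i, θ (inp ed R v i) * G i =
      F v + (ed v).elim 0 fun p => Sum.elim G F p.1 + Sum.elim G F p.2 := by
  have h1 : ∀ w, θ ((1 + Matrix.of (nil ed R)) v w) * F w =
      (if v = w then F w else 0) + θ (nil ed R v w) * F w := by
    intro w
    rw [Matrix.add_apply, Matrix.one_apply, Matrix.of_apply, map_add, add_mul]
    congr 1
    split_ifs
    · rw [map_one, one_mul]
    · rw [map_zero, zero_mul]
  rw [Finset.sum_congr rfl fun w _ => h1 w, Finset.sum_add_distrib, Finset.sum_ite_eq,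
    if_pos (Finset.mem_univ _), add_assoc]
  congr 1
  unfold nil inp
  cases ed v with
  | none =>
    simp
  | some p =>
    simp only [Option.elim_some, map_add, add_mul, Finset.sum_add_distrib]
    have key : ∀ q : Fin N ⊕ K, ∑ w, θ (if q = Sum.inr w then 1 else 0) * F w +
        ∑ i, θ (if q = Sum.inl i then 1 else 0) * G i = Sum.elim G F q := by
      intro q
      rcases q with i | w
      · rw [Finset.sum_eq_zero fun w _ => by rw [if_neg Sum.inl_ne_inr, map_zero, zero_mul], zero_add,
          Finset.sum_eq_single i]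
        · rw [if_pos rfl, map_one, one_mul]
          rfl
        · intro j _ hj
          rw [if_neg (fun h => hj (Sum.inl.inj h).symm), map_zero, zero_mul]
        · intro h
          exact absurd (Finset.mem_univ _) h
      · rw [Finset.sum_eq_zero (s := (Finset.univ : Finset (Fin N))) fun w _ => by
          rw [if_neg Sum.inr_ne_inl, map_zero, zero_mul], add_zero, Finset.sum_eq_single w]
        · rw [if_pos rfl, map_one, one_mul]
          rfl
        · intro j _ hj
          rw [if_neg (fun h => hj (Sum.inr.inj h).symm), map_zero, zero_mul]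
        · intro h
          exact absurd (Finset.mem_univ _) h
    rw [← key p.1, ← key p.2]
    ring

variable (hne : ∀ v p, ed v = some p → p.1 ≠ p.2)

include hrk hne in
theorem sum_eset {A : Type} [CommRing A] (F : (Fin N ⊕ K) → A) (v : K) :
    ∑ w ∈ eset ed v, F w = F (Sum.inr v) + (ed v).elim 0 fun p => F p.1 + F p.2 := by
  unfold eset
  cases hv : ed v with
  | none =>
    simp
  | some p =>
    obtain ⟨h1, h2⟩ := hrk v p hv
    have h3 := hne v p hv
    simp only [Option.elim_some]
    rw [Finset.sum_insert, Finset.sum_pair h3]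
    rw [Finset.mem_insert, Finset.mem_singleton, not_or]
    exact ⟨fun h => lt_irrefl _ (h1 v h.symm), fun h => lt_irrefl _ (h2 v h.symm)⟩

include hrk hne in
theorem card_eset (v : K) : (eset ed v).card = (ed v).elim 1 fun _ => 3 := by
  unfold eset
  cases hv : ed v with
  | none =>
    simp
  | some p =>
    obtain ⟨h1, h2⟩ := hrk v p hv
    have h3 := hne v p hv
    simp only [Option.elim_some]
    rw [Finset.card_insert_of_notMem, Finset.card_pair h3]
    rw [Finset.mem_insert, Finset.mem_singleton, not_or]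
    exact ⟨fun h => lt_irrefl _ (h1 v h.symm), fun h => lt_irrefl _ (h2 v h.symm)⟩

/-- the position of an unknown -/
def pos {κ : ℕ} (e : K ≃ Fin κ) : (Fin N ⊕ K) ↪ Fin (N + κ) where
  toFun := Sum.elim (Fin.castAdd κ) fun v => Fin.natAdd N (e v)
  inj' := by
    rintro (i | v) (j | w) h
    · have h1 := congrArg Fin.val h
      simp at h1
      exact congrArg _ (Fin.ext h1)
    · have h1 := congrArg Fin.val h
      simp at h1
      omega
    · have h1 := congrArg Fin.val h
      simp at h1
      omega
    · have h1 := congrArg Fin.val h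
      simp at h1
      exact congrArg _ (e.injective (Fin.ext h1))

theorem cast_x (κ : ℕ) (i : Fin N) (h : N + (κ + κ) = N + κ + κ) :
    Fin.cast h (Fin.castAdd (κ + κ) i) = Fin.castAdd κ (Fin.castAdd κ i) := Fin.ext rfl

theorem cast_y (κ : ℕ) (m : Fin κ) (h : N + (κ + κ) = N + κ + κ) :
    Fin.cast h (Fin.natAdd N (Fin.castAdd κ m)) = Fin.castAdd κ (Fin.natAdd N m) := Fin.ext rfl

theorem cast_z (κ : ℕ) (m : Fin κ) (h : N + (κ + κ) = N + κ + κ) :
    Fin.cast h (Fin.natAdd N (Fin.natAdd κ m)) = Fin.natAdd (N + κ) m := by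
  apply Fin.ext
  simp
  omega

include hrk hne in
/-- **The normal form belonging to a triangular triple system.** -/
theorem tri_iso (a : R) (cst : K → R) (val : K → MvPolynomial (Fin N) R)
    (hval : ∀ v, val v + ((ed v).elim 0 fun p => Sum.elim X val p.1 + Sum.elim X val p.2) -
      C (cst v) = 0)
    {P : MvPolynomial (Fin N) R} (hP : P = C a * (∑ i, X i ^ 3 + ∑ v, val v ^ 3))
    {κ : ℕ} (e : K ≃ Fin κ) :
    ∃ ψ : MvPolynomial (Fin (N + (κ + κ))) R ≃ₐ[R] MvPolynomial (Fin (N + (κ + κ))) R,
      rename (Fin.cast (Nat.add_assoc N κ κ).symm)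
        (ψ (rename (Fin.castAdd (κ + κ)) P + ∑ m, yv R N m * zv R N m)) =
      Phi a (fun j => (eset ed (e.symm j)).map (pos e)) fun j => cst (e.symm j) := by
  obtain ⟨V, hV1, hV2⟩ := exists_inv ed rk hrk (R := R)
  set U : Matrix (Fin κ) (Fin κ) R := (1 + Matrix.of (nil ed R)).submatrix e.symm e.symm with hU
  have h1 : U * V.submatrix e.symm e.symm = 1 := by
    rw [hU, Matrix.submatrix_mul_equiv, hV1, Matrix.submatrix_one_equiv]
  have h2 : V.submatrix e.symm e.symm * U = 1 := by
    rw [hU, Matrix.submatrix_mul_equiv, hV2, Matrix.submatrix_one_equiv]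
  set B : Matrix (Fin κ) (Fin N) R := fun j i => inp ed R (e.symm j) i with hB
  have key : ∀ {A : Type} [CommRing A] (θ : R →+* A) (F : K → A) (G : Fin N → A) (m : Fin κ),
      ∑ j, θ (U m j) * F (e.symm j) + ∑ i, θ (B m i) * G i = F (e.symm m) +
        (ed (e.symm m)).elim 0 fun p => Sum.elim G F p.1 + Sum.elim G F p.2 := by
    intro A _ θ F G m
    rw [← sum_nil ed θ F G (e.symm m)]
    congr 1
    exact Equiv.sum_comp e.symm fun w => θ ((1 + Matrix.of (nil ed R)) (e.symm m) w) * F w
  obtain ⟨ψ, hψ⟩ := cub_iso (U := U) (V := V.submatrix e.symm e.symm) B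
    (fun j => cst (e.symm j)) a h1 h2 (L := fun j => val (e.symm j)) (by
      intro m
      rw [← add_sub_assoc]
      refine Eq.trans ?_ (hval (e.symm m))
      congr 1
      exact key C val X m) (P := P) (by
      rw [hP]
      congr 2
      exact (Equiv.sum_comp e.symm fun w => val w ^ 3).symm)
  refine ⟨ψ, ?_⟩
  rw [hψ]
  set σ := Fin.cast (Nat.add_assoc N κ κ).symm with hσ
  have x1 : ∀ i, rename σ (xv R κ i) = X (Fin.castAdd κ (Fin.castAdd κ i)) := by
    intro i
    rw [show xv R κ i = X (Fin.castAdd (κ + κ) i) from rfl, rename_X, hσ, cast_x]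
  have y1 : ∀ m, rename σ (yv R N m) = X (Fin.castAdd κ (Fin.natAdd N m)) := by
    intro i
    rw [show yv R N i = X (Fin.natAdd N (Fin.castAdd κ i)) from rfl, rename_X, hσ, cast_y]
  have z1 : ∀ m, rename σ (zv R N m) = X (Fin.natAdd (N + κ) m) := by
    intro i
    rw [show zv R N i = X (Fin.natAdd N (Fin.natAdd κ i)) from rfl, rename_X, hσ, cast_z]
  unfold cub Phi
  rw [map_add, map_mul, rename_C, map_add, map_sum, map_sum, map_sum]
  congr 1
  · rw [Fin.sum_univ_add]
    congr 2
    · refine Finset.sum_congr rfl fun i _ => ?_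
      rw [map_pow, x1]
    · refine Finset.sum_congr rfl fun i _ => ?_
      rw [map_pow, y1]
  · refine Finset.sum_congr rfl fun m _ => ?_
    rw [map_mul, z1]
    congr 1
    unfold eqn
    rw [map_add, map_sub, map_sum, map_sum, rename_C, ← add_sub_assoc]
    congr 1
    rw [Finset.sum_map]
    have h3 := sum_eset ed rk hrk hne
      (fun w => (X (Fin.castAdd κ (pos e w)) : MvPolynomial (Fin (N + κ + κ)) R)) (e.symm m)
    rw [h3]
    have h4 := key (C : R →+* MvPolynomial (Fin (N + κ + κ)) R)
      (fun v => X (Fin.castAdd κ (Fin.natAdd N (e v)))) (fun i => X (Fin.castAdd κ (Fin.castAdd κ i))) m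
    refine Eq.trans ?_ (h4.trans ?_)
    · congr 1
      · refine Finset.sum_congr rfl fun j _ => ?_
        rw [map_mul, rename_C, y1, Equiv.apply_symm_apply]
      · refine Finset.sum_congr rfl fun j _ => ?_
        rw [map_mul, rename_C, x1]
    · congr 1
      cases ed (e.symm m) with
      | none => rfl
      | some p =>
        simp only [Option.elim_some]
        congr 1
        · rcases p.1 with i | v <;> rfl
        · rcases p.2 with i | v <;> rfl

end tri

end Pool.Agent.Q42.CU
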